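import Mathlib

set_option autoImplicit false

/-!
# Project UE: the restriction conjecture for unconditional spherical harmonic expansions

Statements of the packages which need Mathlib only. `Y k` (`k ∈ ℕ`) are functions on a measure
space, `VV μ q Y J` is the supremum over all choices of signs of the `q`-th power of the `L^q` norm
of `∑_{k ∈ J} ±Y k`.
-/

open MeasureTheory Set
open scoped ENNReal

namespace Pool.Agent.U610.UE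

/-- the supremum over the signs of `‖∑_{k ∈ J} ±Y k‖_q^q` -/
noncomputable def VV {X : Type} [MeasurableSpace X] (μ : Measure X) (q : ℝ) (Y : ℕ → X → ℂ)
    (J : Finset ℕ) : ℝ≥0∞ :=
  ⨆ ε : ℕ → ℤˣ, ∫⁻ x, ‖∑ k ∈ J, ((ε k : ℤ) : ℂ) * Y k x‖ₑ ^ q ∂μ

/-- CL: Clarkson's inequality. -/
def S_CL : Prop := ∀ q : ℝ, 2 ≤ q → ∀ a b : ℂ,
  2 * (‖a‖ₑ ^ q + ‖b‖ₑ ^ q) ≤ ‖a + b‖ₑ ^ q + ‖a - b‖ₑ ^ q

/-- FIB: the function `VV` is superadditive (cotype `q`). -/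
def S_FIB : Prop := ∀ (X : Type) [MeasurableSpace X] (μ : Measure X) (q : ℝ), 2 ≤ q →
  ∀ Y : ℕ → X → ℂ, (∀ k, Measurable (Y k)) → ∀ (f : ℕ → ℤ) (I : Finset ℤ) (J : Finset ℕ),
    ∑ i ∈ I, VV μ q Y (J.filter fun k => f k = i) ≤ VV μ q Y J

/-- CON: the contraction principle. -/
def S_CON : Prop := ∀ (X : Type) [MeasurableSpace X] (μ : Measure X) (q : ℝ), 1 ≤ q →
  ∀ Y : ℕ → X → ℂ, (∀ k, Measurable (Y k)) → ∀ (J : Finset ℕ) (a : ℕ → ℂ) (A : ℝ), 0 ≤ A →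
    (∀ k ∈ J, ‖a k‖ ≤ A) →
    ∫⁻ x, ‖∑ k ∈ J, a k * Y k x‖ₑ ^ q ∂μ ≤ ENNReal.ofReal (2 * A) ^ q * VV μ q Y J

/-- CELL: the integral of a function of the cell of length `L` which contains `t`. -/
def S_CELL : Prop := ∀ (Φ : ℤ → ℝ≥0∞) (L : ℝ), 0 < L → ∀ e : ℤ,
  ∫⁻ t : ℝ, Φ (⌊t / L⌋ + e) = ENNReal.ofReal L * ∑' i, Φ i

/-- `k` lies in the window number `j` around `t` -/
def near (ρ : ℕ → ℝ) (t : ℝ) (j k : ℕ) : Prop :=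
  |t - ρ k| ≤ t / 2 ∧ (2 : ℝ) ^ j ≤ max 1 |t - ρ k| ∧ max 1 |t - ρ k| < (2 : ℝ) ^ (j + 1)

/-- the hypothesis on the multipliers -/
def Mult (B : ℝ) (ρ : ℕ → ℝ) (w : ℕ → ℝ → ℂ) : Prop :=
  (∀ k, Measurable (w k)) ∧
    ∀ k t, 8 ≤ t → ‖w k t‖ ^ 4 * max 1 |t - ρ k| ≤ B * (t + |t - ρ k|)

open Classical in
/-- WIN: the estimate for one window. -/
def S_WIN : Prop := ∀ q γ B : ℝ, 2 < q → q < 4 → 1 < γ → 0 < B → ∃ C : ℝ, 0 < C ∧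
  ∀ (X : Type) [MeasurableSpace X] (μ : Measure X) [SFinite μ] (Y : ℕ → X → ℂ),
    (∀ k, Measurable (Y k)) → ∀ (ρ : ℕ → ℝ) (w : ℕ → ℝ → ℂ), Mult B ρ w →
    ∀ (J : Finset ℕ) (j : ℕ),
      ∫⁻ t in Ici (8 : ℝ), ENNReal.ofReal (t ^ (-γ)) *
        ∫⁻ x, ‖∑ k ∈ J, (if near ρ t j k then w k t else 0) * Y k x‖ₑ ^ q ∂μ ≤
      ENNReal.ofReal (C * ((2 : ℝ) ^ j) ^ (1 - γ)) * VV μ q Y J

open Classical in
/-- FAR: the estimate far from the turning points. -/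
def S_FAR : Prop := ∀ q γ B : ℝ, 2 < q → 1 < γ → 0 < B → ∃ C : ℝ, 0 < C ∧
  ∀ (X : Type) [MeasurableSpace X] (μ : Measure X) [SFinite μ] (Y : ℕ → X → ℂ),
    (∀ k, Measurable (Y k)) → ∀ (ρ : ℕ → ℝ) (w : ℕ → ℝ → ℂ), Mult B ρ w → ∀ J : Finset ℕ,
      ∫⁻ t in Ici (8 : ℝ), ENNReal.ofReal (t ^ (-γ)) *
        ∫⁻ x, ‖∑ k ∈ J, (if |t - ρ k| ≤ t / 2 then 0 else w k t) * Y k x‖ₑ ^ q ∂μ ≤
      ENNReal.ofReal C * VV μ q Y J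

/-- ABS: the abstract estimate. -/
def S_ABS : Prop := ∀ q γ B : ℝ, 2 < q → q < 4 → 1 < γ → 0 < B → ∃ C : ℝ, 0 < C ∧
  ∀ (X : Type) [MeasurableSpace X] (μ : Measure X) [SFinite μ] (Y : ℕ → X → ℂ),
    (∀ k, Measurable (Y k)) → ∀ (ρ : ℕ → ℝ) (w : ℕ → ℝ → ℂ), Mult B ρ w → ∀ J : Finset ℕ,
      ∫⁻ t in Ici (8 : ℝ), ENNReal.ofReal (t ^ (-γ)) *
        ∫⁻ x, ‖∑ k ∈ J, w k t * Y k x‖ₑ ^ q ∂μ ≤
      ENNReal.ofReal C * VV μ q Y J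

end Pool.Agent.U610.UE
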