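import Mathlib
import Pool.Agent.U610.UE.Def

/-!
# Project UE, package ABS: sum over the windows by Minkowski's inequality
-/

set_option autoImplicit false

open MeasureTheory Set
open scoped ENNReal

namespace Pool.Agent.U610.UE

namespace ABS

theorem mink_fin {α : Type*} [MeasurableSpace α] (μ : Measure α) (p : ℝ) (hp : 1 ≤ p)
    (u : ℕ → α → ℝ≥0∞) (hu : ∀ j, Measurable (u j)) (n : ℕ) :
    (∫⁻ a, (∑ j ∈ Finset.range n, u j a) ^ p ∂μ) ^ (1 / p) ≤
      ∑ j ∈ Finset.range n, (∫⁻ a, (u j a) ^ p ∂μ) ^ (1 / p) := by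
  have hp0 : 0 < p := by linarith
  induction n with
  | zero =>
    simp [ENNReal.zero_rpow_of_pos hp0, hp0]
  | succ n ih =>
    rw [Finset.sum_range_succ]
    have h := ENNReal.lintegral_Lp_add_le (μ := μ) (p := p)
      (f := fun a => ∑ j ∈ Finset.range n, u j a) (g := u n)
      (Finset.measurable_fun_sum _ fun j _ => hu j).aemeasurable (hu n).aemeasurable hp
    simp only [Pi.add_apply] at h
    simp only [Finset.sum_range_succ]
    exact h.trans (add_le_add_left ih _)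

theorem mink {α : Type*} [MeasurableSpace α] (μ : Measure α) (p : ℝ) (hp : 1 ≤ p)
    (u : ℕ → α → ℝ≥0∞) (hu : ∀ j, Measurable (u j)) :
    ∫⁻ a, (∑' j, u j a) ^ p ∂μ ≤ (∑' j, (∫⁻ a, (u j a) ^ p ∂μ) ^ (1 / p)) ^ p := by
  have hp0 : 0 < p := by linarith
  have e1 : ∀ a, (∑' j, u j a) ^ p = ⨆ n : ℕ, (∑ j ∈ Finset.range n, u j a) ^ p := by
    intro a
    rw [ENNReal.tsum_eq_iSup_nat]
    exact (ENNReal.orderIsoRpow p hp0).map_iSup _
  have hmono : Monotone fun (n : ℕ) (a : α) => (∑ j ∈ Finset.range n, u j a) ^ p := by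
    intro m n hmn a
    apply ENNReal.rpow_le_rpow _ hp0.le
    exact Finset.sum_le_sum_of_subset (Finset.range_mono hmn)
  simp only [e1]
  rw [lintegral_iSup (fun n => (Finset.measurable_fun_sum _ fun j _ => hu j).pow_const p) hmono]
  apply iSup_le
  intro n
  have h1 := mink_fin μ p hp u hu n
  have h2 : ∑ j ∈ Finset.range n, (∫⁻ a, (u j a) ^ p ∂μ) ^ (1 / p) ≤
      ∑' j, (∫⁻ a, (u j a) ^ p ∂μ) ^ (1 / p) := ENNReal.sum_le_tsum _
  have h3 := ENNReal.rpow_le_rpow (h1.trans h2) hp0.le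
  rw [← ENNReal.rpow_mul, one_div_mul_cancel hp0.ne', ENNReal.rpow_one] at h3
  exact h3

open Classical in
/-- the coefficient of `Y k` in the piece number `j`: number `0` is the part far from the turning
points, number `j + 1` the window number `j` -/
noncomputable def co (ρ : ℕ → ℝ) (w : ℕ → ℝ → ℂ) : ℕ → ℝ → ℕ → ℂ
  | 0, t, k => if |t - ρ k| ≤ t / 2 then 0 else w k t
  | j + 1, t, k => if near ρ t j k then w k t else 0

theorem co_sum (ρ : ℕ → ℝ) (w : ℕ → ℝ → ℂ) (t : ℝ) (k N : ℕ)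
    (hN : max 1 |t - ρ k| < (2 : ℝ) ^ N) :
    ∑ j ∈ Finset.range (N + 1), co ρ w j t k = w k t := by
  classical
  rw [Finset.sum_range_succ']
  by_cases h : |t - ρ k| ≤ t / 2
  · obtain ⟨j0, h1, h2⟩ := exists_nat_pow_near (le_max_left (1 : ℝ) |t - ρ k|) (one_lt_two : (1 : ℝ) < 2)
    have e : ∀ j, co ρ w (j + 1) t k = if j = j0 then w k t else 0 := by
      intro j
      have hiff : near ρ t j k ↔ j = j0 := by
        constructor
        · rintro ⟨_, h3, h4⟩
          have a1 : (2 : ℝ) ^ j < 2 ^ (j0 + 1) := lt_of_le_of_lt h3 h2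
          have a2 : (2 : ℝ) ^ j0 < 2 ^ (j + 1) := lt_of_le_of_lt h1 h4
          have b1 := (pow_lt_pow_iff_right₀ (one_lt_two : (1 : ℝ) < 2)).1 a1
          have b2 := (pow_lt_pow_iff_right₀ (one_lt_two : (1 : ℝ) < 2)).1 a2
          omega
        · rintro rfl
          exact ⟨h, h1, h2⟩
      simp only [co, hiff]
    have hj : j0 < N := (pow_lt_pow_iff_right₀ (one_lt_two : (1 : ℝ) < 2)).1 (lt_of_le_of_lt h1 hN)
    have e0 : co ρ w 0 t k = 0 := by simp only [co, if_pos h]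
    rw [e0, add_zero, Finset.sum_congr rfl fun j _ => e j, Finset.sum_ite_eq',
      if_pos (Finset.mem_range.2 hj)]
  · have e : ∀ j, co ρ w (j + 1) t k = 0 := by
      intro j
      simp only [co]
      rw [if_neg]
      rintro ⟨h1, _⟩
      exact h h1
    have e0 : co ρ w 0 t k = w k t := by simp only [co, if_neg h]
    rw [e0, Finset.sum_congr rfl fun j _ => e j, Finset.sum_const_zero, zero_add]

theorem norm_le {X : Type} (Y : ℕ → X → ℂ) (ρ : ℕ → ℝ) (w : ℕ → ℝ → ℂ) (J : Finset ℕ) (t : ℝ)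
    (x : X) : ‖∑ k ∈ J, w k t * Y k x‖ₑ ≤ ∑' j, ‖∑ k ∈ J, co ρ w j t k * Y k x‖ₑ := by
  obtain ⟨N, hN⟩ : ∃ N : ℕ, ∀ k ∈ J, max 1 |t - ρ k| < (2 : ℝ) ^ N := by
    choose f hf using fun k => pow_unbounded_of_one_lt (max 1 |t - ρ k|) (one_lt_two : (1 : ℝ) < 2)
    exact ⟨J.sup f, fun k hk => (hf k).trans_le
      (pow_le_pow_right₀ one_le_two (Finset.le_sup hk))⟩
  have e : ∑ k ∈ J, w k t * Y k x =
      ∑ j ∈ Finset.range (N + 1), ∑ k ∈ J, co ρ w j t k * Y k x := by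
    rw [Finset.sum_comm]
    refine Finset.sum_congr rfl fun k hk => ?_
    rw [← Finset.sum_mul, co_sum ρ w t k N (hN k hk)]
  rw [e]
  exact (enorm_sum_le _ _).trans (ENNReal.sum_le_tsum _)

theorem co_meas (ρ : ℕ → ℝ) (w : ℕ → ℝ → ℂ) (hw : ∀ k, Measurable (w k)) (j k : ℕ) :
    Measurable fun t => co ρ w j t k := by
  classical
  have h1 : Measurable fun t : ℝ => |t - ρ k| := Continuous.measurable (by fun_prop)
  have h2 : Measurable fun t : ℝ => max 1 |t - ρ k| := Continuous.measurable (by fun_prop)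
  have h3 : Measurable fun t : ℝ => t / 2 := Continuous.measurable (by fun_prop)
  cases j with
  | zero =>
    simp only [co]
    exact Measurable.ite (measurableSet_le h1 h3) measurable_const (hw k)
  | succ j =>
    simp only [co]
    refine Measurable.ite ?_ (hw k) measurable_const
    exact (measurableSet_le h1 h3).inter
      ((measurableSet_le measurable_const h2).inter (measurableSet_lt h2 measurable_const))

theorem piece_meas {X : Type} [MeasurableSpace X] (Y : ℕ → X → ℂ) (hY : ∀ k, Measurable (Y k))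
    (ρ : ℕ → ℝ) (w : ℕ → ℝ → ℂ) (hw : ∀ k, Measurable (w k)) (J : Finset ℕ) (j : ℕ) :
    Measurable fun z : ℝ × X => ∑ k ∈ J, co ρ w j z.1 k * Y k z.2 := by
  refine Finset.measurable_fun_sum _ fun k _ => ?_
  exact ((co_meas ρ w hw j k).comp measurable_fst).mul ((hY k).comp measurable_snd)

end ABS

open ABS in
/-- the abstract estimate -/
theorem t_ABS (hW : S_WIN) (hF : S_FAR) : S_ABS := by
  intro q γ B hq2 hq4 hγ hB
  obtain ⟨C1, hC1, h1⟩ := hW q γ B hq2 hq4 hγ hB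
  obtain ⟨C2, hC2, h2⟩ := hF q γ B hq2 hγ hB
  have hq0 : 0 < q := by linarith
  set r : ℝ := (2 : ℝ) ^ ((1 - γ) / q) with hr
  have hr0 : 0 < r := by positivity
  have hr1 : r < 1 := Real.rpow_lt_one_of_one_lt_of_neg (by norm_num)
    (div_neg_of_neg_of_pos (by linarith) hq0)
  have h1r : 0 < (1 - r)⁻¹ := inv_pos.2 (by linarith)
  set K : ℝ := C2 ^ (1 / q) + C1 ^ (1 / q) / r with hK
  have hK0 : 0 < K := by positivity
  refine ⟨(K * (1 - r)⁻¹) ^ q, by positivity, ?_⟩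
  intro X _ μ _ Y hY ρ w hw J
  set V : ℝ≥0∞ := VV μ q Y J with hV
  set ν : Measure ℝ := (volume.restrict (Ici (8 : ℝ))).withDensity
    fun t => ENNReal.ofReal (t ^ (-γ)) with hν
  have hd : Measurable fun t : ℝ => ENNReal.ofReal (t ^ (-γ)) := by fun_prop
  have conv : ∀ f : ℝ × X → ℝ≥0∞, Measurable f →
      ∫⁻ t in Ici (8 : ℝ), ENNReal.ofReal (t ^ (-γ)) * ∫⁻ x, f (t, x) ∂μ =
        ∫⁻ z, f z ∂(ν.prod μ) := by
    intro f hf
    rw [lintegral_prod _ hf.aemeasurable, hν,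
      lintegral_withDensity_eq_lintegral_mul _ hd (hf.lintegral_prod_right')]
    rfl
  have hm : ∀ j, Measurable fun z : ℝ × X => ‖∑ k ∈ J, co ρ w j z.1 k * Y k z.2‖ₑ := fun j =>
    (piece_meas Y hY ρ w hw.1 J j).enorm
  have hm0 : Measurable fun z : ℝ × X => ‖∑ k ∈ J, w k z.1 * Y k z.2‖ₑ := by
    refine Measurable.enorm (Finset.measurable_fun_sum _ fun k _ => ?_)
    exact ((hw.1 k).comp measurable_fst).mul ((hY k).comp measurable_snd)
  have piece : ∀ j, (∫⁻ z, ‖∑ k ∈ J, co ρ w j z.1 k * Y k z.2‖ₑ ^ q ∂(ν.prod μ)) ^ (1 / q) ≤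
      ENNReal.ofReal (K * r ^ j) * V ^ (1 / q) := by
    intro j
    rw [← conv _ ((hm j).pow_const q)]
    cases j with
    | zero =>
      refine (ENNReal.rpow_le_rpow (h2 X μ Y hY ρ w hw J) (by positivity)).trans ?_
      rw [ENNReal.mul_rpow_of_nonneg _ _ (by positivity),
        ENNReal.ofReal_rpow_of_nonneg hC2.le (by positivity)]
      refine mul_le_mul_left (ENNReal.ofReal_le_ofReal ?_) _
      rw [pow_zero, mul_one, hK]
      have : 0 ≤ C1 ^ (1 / q) / r := by positivity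
      linarith
    | succ j =>
      refine (ENNReal.rpow_le_rpow (h1 X μ Y hY ρ w hw J j) (by positivity)).trans ?_
      rw [ENNReal.mul_rpow_of_nonneg _ _ (by positivity),
        ENNReal.ofReal_rpow_of_nonneg (by positivity) (by positivity)]
      refine mul_le_mul_left (ENNReal.ofReal_le_ofReal ?_) _
      have e : (C1 * ((2 : ℝ) ^ j) ^ (1 - γ)) ^ (1 / q) = C1 ^ (1 / q) * r ^ j := by
        rw [Real.mul_rpow hC1.le (by positivity), ← Real.rpow_natCast 2 j,
          ← Real.rpow_mul (by norm_num), ← Real.rpow_mul (by norm_num), hr,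
          ← Real.rpow_natCast, ← Real.rpow_mul (by norm_num)]
        congr 2
        field_simp
      rw [e, hK, pow_succ]
      have e2 : (C2 ^ (1 / q) + C1 ^ (1 / q) / r) * (r ^ j * r) =
          C2 ^ (1 / q) * (r ^ j * r) + C1 ^ (1 / q) * r ^ j := by
        field_simp
      rw [e2]
      have : 0 ≤ C2 ^ (1 / q) * (r ^ j * r) := by positivity
      linarith
  have hsum : HasSum (fun j : ℕ => K * r ^ j) (K * (1 - r)⁻¹) :=
    (hasSum_geometric_of_lt_one hr0.le hr1).mul_left _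
  calc ∫⁻ t in Ici (8 : ℝ), ENNReal.ofReal (t ^ (-γ)) *
        ∫⁻ x, ‖∑ k ∈ J, w k t * Y k x‖ₑ ^ q ∂μ
      = ∫⁻ z, ‖∑ k ∈ J, w k z.1 * Y k z.2‖ₑ ^ q ∂(ν.prod μ) := conv _ (hm0.pow_const q)
    _ ≤ ∫⁻ z, (∑' j, ‖∑ k ∈ J, co ρ w j z.1 k * Y k z.2‖ₑ) ^ q ∂(ν.prod μ) := by
        apply lintegral_mono
        intro z
        exact ENNReal.rpow_le_rpow (norm_le Y ρ w J z.1 z.2) hq0.le
    _ ≤ (∑' j, (∫⁻ z, ‖∑ k ∈ J, co ρ w j z.1 k * Y k z.2‖ₑ ^ q ∂(ν.prod μ)) ^ (1 / q)) ^ q :=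
        mink (ν.prod μ) q (by linarith) _ hm
    _ ≤ (∑' j : ℕ, ENNReal.ofReal (K * r ^ j) * V ^ (1 / q)) ^ q := by
        apply ENNReal.rpow_le_rpow _ hq0.le
        exact ENNReal.tsum_le_tsum piece
    _ = (ENNReal.ofReal (K * (1 - r)⁻¹) * V ^ (1 / q)) ^ q := by
        rw [ENNReal.tsum_mul_right, ← ENNReal.ofReal_tsum_of_nonneg (fun j => by positivity)
          hsum.summable, hsum.tsum_eq]
    _ = ENNReal.ofReal ((K * (1 - r)⁻¹) ^ q) * V := by
        rw [ENNReal.mul_rpow_of_nonneg _ _ hq0.le,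
          ENNReal.ofReal_rpow_of_nonneg (by positivity) hq0.le,
          ← ENNReal.rpow_mul, one_div_mul_cancel hq0.ne', ENNReal.rpow_one]

end Pool.Agent.U610.UE
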