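import Pool.Agent.U610.UE.Stm

set_option autoImplicit false

/-! Project UE, package BES: pointwise bounds for the Bessel type functions. -/

open Set Filter Topology MeasureTheory

namespace Pool.Agent.U610.UE

open Pool.Agent.N303.SH

/-- the three ranges of `t`: above, near and below the turning point `ρ` -/
lemma bes_core {ρ A : ℝ} {w v : ℝ → ℝ} (hρ0 : 0 ≤ ρ) (o : Ode (ρ ^ 2) w v)
    (hA : Tendsto (fun t => w t ^ 2 + v t ^ 2) atTop (𝓝 A)) (z : Zero (ρ ^ 2) w v) {t : ℝ}
    (ht : 8 ≤ t) :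
    w t ^ 4 * max 1 |t - ρ| ≤ (1000 * A ^ 2 + 1) * (t + |t - ρ|) := by
  have hA0 := A_nonneg hA
  have ht0 : 0 < t := by linarith
  have hA2 : 0 ≤ A ^ 2 := sq_nonneg A
  rcases le_or_gt (ρ + 1) t with h1 | h1
  · have h2 : (1:ℝ) ≤ |t - ρ| := by rw [abs_of_nonneg (by linarith)]; linarith
    rw [max_eq_right h2, abs_of_nonneg (by linarith : (0:ℝ) ≤ t - ρ)]
    have h3 := LG (sq_nonneg ρ) o hA ht0 (by nlinarith)
    have h4 : w t ^ 4 * (t - ρ) ≤ A ^ 2 * t := by
      have h5 : (1 - ρ ^ 2 / t ^ 2) * w t ^ 4 = (t - ρ) * (t + ρ) * w t ^ 4 / t ^ 2 := by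
        field_simp
        ring
      rw [h5, div_le_iff₀ (by positivity)] at h3
      have h6 : t * (w t ^ 4 * (t - ρ)) ≤ t * (A ^ 2 * t) := by
        have h7 : 0 ≤ (t - ρ) * w t ^ 4 := mul_nonneg (by linarith) (by positivity)
        nlinarith [mul_nonneg hρ0 h7]
      exact le_of_mul_le_mul_left h6 ht0
    have h8 : 0 ≤ A ^ 2 * t := by positivity
    have h9 : 0 ≤ A ^ 2 * (t - ρ) := mul_nonneg hA2 (by linarith)
    nlinarith
  · -- `ρ > 7`
    have hρ : 4 ≤ ρ := by linarith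
    have hρp : 0 < ρ := by linarith
    set h : ℝ := (ρ / 4) ^ ((1 : ℝ) / 3) with hh
    have hh0 : 0 < h := by positivity
    have hh3 : h ^ 3 = ρ / 4 := by
      rw [hh, ← Real.rpow_natCast, ← Real.rpow_mul (by positivity)]
      norm_num
    have hge := h_ge hρ hh0 hh3
    rcases le_or_gt ρ t with h2 | h2
    · have hd : |t - ρ| ≤ 1 := by rw [abs_of_nonneg (by linarith)]; linarith
      rw [max_eq_left hd]
      have hv : ∀ s ∈ Ico ρ t, ‖v s‖ ≤ Real.sqrt A := by
        intro s hs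
        have hs0 : 0 < s := by linarith [hs.1]
        have h3 := G_le (sq_nonneg ρ) o hA hs0
        have h4 : 0 ≤ 1 - ρ ^ 2 / s ^ 2 := by
          rw [sub_nonneg, div_le_one (by positivity)]
          exact pow_le_pow_left₀ hρp.le hs.1 2
        have h5 : v s ^ 2 ≤ A := by nlinarith [mul_nonneg h4 (sq_nonneg (w s))]
        rw [Real.norm_eq_abs]
        exact Real.abs_le_sqrt h5
      have h6 : ‖w t - w ρ‖ ≤ Real.sqrt A * (t - ρ) := by
        refine norm_image_sub_le_of_norm_deriv_le_segment' (f := w) (f' := v) (fun s hs => ?_) hv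
          t ⟨h2, le_rfl⟩
        exact (o.dw s (by linarith [hs.1])).hasDerivWithinAt
      have h7 : (w t - w ρ) ^ 2 ≤ A := by
        have h8 : |w t - w ρ| ≤ Real.sqrt A := by
          rw [Real.norm_eq_abs] at h6
          refine h6.trans ?_
          nlinarith [Real.sqrt_nonneg A]
        calc (w t - w ρ) ^ 2 = |w t - w ρ| ^ 2 := (sq_abs _).symm
          _ ≤ Real.sqrt A ^ 2 := pow_le_pow_left₀ (abs_nonneg _) h8 2
          _ = A := Real.sq_sqrt hA0
      have hM := bM hρ hh0 hh3 o hA z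
      have h9 : w t ^ 2 ≤ 12 * A * h := by
        have e1 : w t ^ 2 ≤ 2 * w ρ ^ 2 + 2 * (w t - w ρ) ^ 2 := by
          nlinarith [sq_nonneg (w t - 2 * w ρ)]
        nlinarith [mul_nonneg hA0 (by linarith : (0:ℝ) ≤ h - 1)]
      have h10 : w t ^ 4 ≤ 36 * A ^ 2 * ρ := by
        calc w t ^ 4 = (w t ^ 2) ^ 2 := by ring
          _ ≤ (12 * A * h) ^ 2 := pow_le_pow_left₀ (sq_nonneg _) h9 2
          _ = 144 * A ^ 2 * (h ^ 2 * 1) := by ring
          _ ≤ 144 * A ^ 2 * (h ^ 2 * h) := by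
              apply mul_le_mul_of_nonneg_left _ (by positivity)
              exact mul_le_mul_of_nonneg_left hge (sq_nonneg _)
          _ = 144 * A ^ 2 * h ^ 3 := by ring
          _ = 36 * A ^ 2 * ρ := by rw [hh3]; ring
      have h11 : A ^ 2 * ρ ≤ A ^ 2 * t := mul_le_mul_of_nonneg_left h2 hA2
      have h12 : 0 ≤ A ^ 2 * t := by positivity
      have h13 : 0 ≤ A ^ 2 * |t - ρ| := by positivity
      have h14 : 0 ≤ |t - ρ| := abs_nonneg _
      nlinarith
    · have hd : |t - ρ| = ρ - t := by rw [abs_sub_comm, abs_of_nonneg (by linarith)]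
      rw [hd]
      have h3 := below hρ hh0 hh3 o hA z ht0 h2.le
      have hp : 0 < ρ - t := by linarith
      have h4 : w t ^ 4 * (h + ρ - t) ^ 4 ≤ 25 * A ^ 2 * ρ ^ 2 := by
        calc w t ^ 4 * (h + ρ - t) ^ 4 = (w t ^ 2 * (h + ρ - t) ^ 2) ^ 2 := by ring
          _ ≤ (5 * A * ρ) ^ 2 := pow_le_pow_left₀ (by positivity) h3 2
          _ = _ := by ring
      have h5 : h ^ 3 * max 1 (ρ - t) ≤ (h + ρ - t) ^ 4 := by
        calc h ^ 3 * max 1 (ρ - t) ≤ (h + ρ - t) ^ 3 * (h + ρ - t) := by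
              apply mul_le_mul
              · exact pow_le_pow_left₀ hh0.le (by linarith) 3
              · exact max_le (by linarith) (by linarith)
              · positivity
              · have : 0 ≤ h + ρ - t := by linarith
                positivity
          _ = _ := by ring
      have h6 : ρ * (w t ^ 4 * max 1 (ρ - t)) ≤ ρ * (100 * A ^ 2 * ρ) := by
        have h7 := mul_le_mul_of_nonneg_left h5 (by positivity : 0 ≤ w t ^ 4)
        rw [hh3] at h7
        nlinarith
      have h8 : w t ^ 4 * max 1 (ρ - t) ≤ 100 * A ^ 2 * ρ := le_of_mul_le_mul_left h6 hρp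
      have h9 : t + (ρ - t) = ρ := by ring
      rw [h9]
      have h10 : 0 ≤ A ^ 2 * ρ := by positivity
      nlinarith

theorem t_BES : S_BES := by
  intro c hc
  obtain ⟨A, hA⟩ := lim_all hc
  refine ⟨1000 * A ^ 2 + 1, by positivity, ?_⟩
  intro k t ht
  have hρ2 : Real.sqrt (mk c k) ^ 2 = mk c k := Real.sq_sqrt (mk_nonneg hc k)
  exact bes_core (Real.sqrt_nonneg _) (by rw [hρ2]; exact ode_k k) (hA k)
    (by rw [hρ2]; exact zero_k hc k) ht

end Pool.Agent.U610.UE
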