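import Pool.Agent.U610.UE.Def

set_option autoImplicit false

/-!
# Project UE, package CELL: the integral of a function of the cell
-/

open MeasureTheory Set
open scoped ENNReal

namespace Pool.Agent.U610.UE

theorem t_CELL : S_CELL := by
  intro Φ L hL e
  have hS : ∀ i : ℤ, {t : ℝ | ⌊t / L⌋ + e = i} =
      Ico (((i - e : ℤ) : ℝ) * L) ((((i - e : ℤ) : ℝ) + 1) * L) := by
    intro i
    ext t
    rw [mem_ofPred_eq, mem_Ico, ← le_div_iff₀ hL, ← div_lt_iff₀ hL, ← Int.floor_eq_iff]
    omega
  have h1 : ∀ t : ℝ, Φ (⌊t / L⌋ + e) =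
      ∑' i : ℤ, ({t : ℝ | ⌊t / L⌋ + e = i}).indicator (fun _ => Φ i) t := by
    intro t
    rw [tsum_eq_single (⌊t / L⌋ + e)]
    · rw [indicator_of_mem]
      exact rfl
    · intro i hi
      rw [indicator_of_notMem]
      intro h
      exact hi h.symm
  simp_rw [h1]
  rw [lintegral_tsum]
  · have h2 : ∀ i : ℤ, ∫⁻ t : ℝ, ({t : ℝ | ⌊t / L⌋ + e = i}).indicator (fun _ => Φ i) t =
        Φ i * ENNReal.ofReal L := by
      intro i
      rw [hS i, lintegral_indicator_const measurableSet_Ico, Real.volume_Ico]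
      congr 2
      ring
    rw [tsum_congr h2, ENNReal.tsum_mul_right, mul_comm]
  · intro i
    exact (measurable_const.indicator (by rw [hS i]; exact measurableSet_Ico)).aemeasurable

end Pool.Agent.U610.UE
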