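import Pool.Agent.U610.UE.Def

set_option autoImplicit false

/-!
# Project UE, package CON: the contraction principle
-/

open MeasureTheory Set
open scoped ENNReal

namespace Pool.Agent.U610.UE

namespace CONaux

/-- the `L^q` seminorm -/
noncomputable def N {X : Type} [MeasurableSpace X] (μ : Measure X) (q : ℝ) (F : X → ℂ) : ℝ≥0∞ :=
  (∫⁻ x, ‖F x‖ₑ ^ q ∂μ) ^ (1 / q)

variable {X : Type} [MeasurableSpace X] {μ : Measure X} {q : ℝ}

theorem N_mono (hq : 1 ≤ q) {F G : X → ℂ} {g h : X → ℝ≥0∞}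
    (hg : Measurable g) (hh : Measurable h) (hF : ∀ x, ‖F x‖ₑ ≤ g x + h x) :
    N μ q F ≤ (∫⁻ x, g x ^ q ∂μ) ^ (1 / q) + (∫⁻ x, h x ^ q ∂μ) ^ (1 / q) := by
  have hq0 : (0 : ℝ) ≤ q := by linarith
  refine le_trans ?_ (ENNReal.lintegral_Lp_add_le (hg.aemeasurable) (hh.aemeasurable) hq)
  refine ENNReal.rpow_le_rpow ?_ (by positivity)
  exact lintegral_mono fun x => ENNReal.rpow_le_rpow (hF x) hq0

theorem N_add (hq : 1 ≤ q) {F G : X → ℂ} (hF : Measurable F) (hG : Measurable G) :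
    N μ q (fun x => F x + G x) ≤ N μ q F + N μ q G := by
  exact N_mono (G := G) hq hF.enorm hG.enorm (fun x => enorm_add_le _ _)

theorem N_smul (hq : 1 ≤ q) (c : ℂ) {F : X → ℂ} (hF : Measurable F) :
    N μ q (fun x => c * F x) = ‖c‖ₑ * N μ q F := by
  have hq0 : (0 : ℝ) < q := by linarith
  unfold N
  have : (fun x => ‖c * F x‖ₑ ^ q) = fun x => ‖c‖ₑ ^ q * ‖F x‖ₑ ^ q := by
    funext x
    rw [enorm_mul, ENNReal.mul_rpow_of_nonneg _ _ hq0.le]
  rw [this, lintegral_const_mul _ (hF.enorm.pow_const q),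
    ENNReal.mul_rpow_of_nonneg _ _ (by positivity), ← ENNReal.rpow_mul]
  rw [mul_one_div_cancel hq0.ne', ENNReal.rpow_one]

theorem con_real (hq : 1 ≤ q) (Y : ℕ → X → ℂ) (hY : ∀ k, Measurable (Y k)) (K : ℝ≥0∞)
    (J : Finset ℕ) : ∀ f : X → ℂ, Measurable f →
    (∀ ε : ℕ → ℤˣ, N μ q (fun x => f x + ∑ k ∈ J, ((ε k : ℤ) : ℂ) * Y k x) ≤ K) →
    ∀ b : ℕ → ℝ, (∀ k ∈ J, |b k| ≤ 1) →
      N μ q (fun x => f x + ∑ k ∈ J, (b k : ℂ) * Y k x) ≤ K := by
  classical
  induction J using Finset.induction_on with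
  | empty =>
    intro f hf h b hb
    have := h (fun _ => 1)
    simpa using this
  | insert k J hk ih =>
    intro f hf h b hb
    have hbk : |b k| ≤ 1 := hb k (Finset.mem_insert_self _ _)
    have hbJ : ∀ j ∈ J, |b j| ≤ 1 := fun j hj => hb j (Finset.mem_insert_of_mem hj)
    have hsum : ∀ (ε : ℕ → ℤˣ) (u : ℤˣ) (x : X),
        ∑ j ∈ insert k J, ((Function.update ε k u j : ℤ) : ℂ) * Y j x
          = ((u : ℤ) : ℂ) * Y k x + ∑ j ∈ J, ((ε j : ℤ) : ℂ) * Y j x := by
      intro ε u x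
      rw [Finset.sum_insert hk]
      congr 1
      · simp
      · refine Finset.sum_congr rfl fun j hj => ?_
        have : j ≠ k := fun h => hk (h ▸ hj)
        rw [Function.update_of_ne this]
    have h1 : N μ q (fun x => (f x + Y k x) + ∑ j ∈ J, (b j : ℂ) * Y j x) ≤ K := by
      refine ih (fun x => f x + Y k x) (hf.add (hY k)) ?_ b hbJ
      intro ε
      have := h (Function.update ε k 1)
      refine le_trans (le_of_eq ?_) this
      congr 1
      funext x
      rw [hsum]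
      push_cast
      ring
    have h2 : N μ q (fun x => (f x - Y k x) + ∑ j ∈ J, (b j : ℂ) * Y j x) ≤ K := by
      refine ih (fun x => f x - Y k x) (hf.sub (hY k)) ?_ b hbJ
      intro ε
      have := h (Function.update ε k (-1))
      refine le_trans (le_of_eq ?_) this
      congr 1
      funext x
      rw [hsum]
      push_cast
      ring
    have hm : Measurable (fun x => ∑ j ∈ J, (b j : ℂ) * Y j x) :=
      Finset.measurable_sum _ fun j _ => (hY j).const_mul _
    have e : (fun x => f x + ∑ j ∈ insert k J, (b j : ℂ) * Y j x) =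
        fun x => (((1 + b k) / 2 : ℝ) : ℂ) * ((f x + Y k x) + ∑ j ∈ J, (b j : ℂ) * Y j x) +
          (((1 - b k) / 2 : ℝ) : ℂ) * ((f x - Y k x) + ∑ j ∈ J, (b j : ℂ) * Y j x) := by
      funext x
      rw [Finset.sum_insert hk]
      push_cast
      ring
    rw [e]
    obtain ⟨hb1, hb2⟩ := abs_le.mp hbk
    have m1 : Measurable (fun x => (f x + Y k x) + ∑ j ∈ J, (b j : ℂ) * Y j x) :=
      (hf.add (hY k)).add hm
    have m2 : Measurable (fun x => (f x - Y k x) + ∑ j ∈ J, (b j : ℂ) * Y j x) :=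
      (hf.sub (hY k)).add hm
    refine le_trans (N_add hq (m1.const_mul _) (m2.const_mul _)) ?_
    rw [N_smul hq _ m1, N_smul hq _ m2]
    have e1 : ‖(((1 + b k) / 2 : ℝ) : ℂ)‖ₑ = ENNReal.ofReal ((1 + b k) / 2) := by
      rw [← ofReal_norm_eq_enorm, Complex.norm_real, Real.norm_of_nonneg (by linarith)]
    have e2 : ‖(((1 - b k) / 2 : ℝ) : ℂ)‖ₑ = ENNReal.ofReal ((1 - b k) / 2) := by
      rw [← ofReal_norm_eq_enorm, Complex.norm_real, Real.norm_of_nonneg (by linarith)]
    rw [e1, e2]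
    calc ENNReal.ofReal ((1 + b k) / 2) * N μ q _ + ENNReal.ofReal ((1 - b k) / 2) * N μ q _
        ≤ ENNReal.ofReal ((1 + b k) / 2) * K + ENNReal.ofReal ((1 - b k) / 2) * K := by
          gcongr
      _ = K := by
          rw [← add_mul, ← ENNReal.ofReal_add (by linarith) (by linarith)]
          have : (1 + b k) / 2 + (1 - b k) / 2 = 1 := by ring
          rw [this]
          simp

theorem N_sign_le (hq : 1 ≤ q) (Y : ℕ → X → ℂ) (J : Finset ℕ) (ε : ℕ → ℤˣ) :
    N μ q (fun x => ∑ k ∈ J, ((ε k : ℤ) : ℂ) * Y k x) ≤ (VV μ q Y J) ^ (1 / q) := by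
  unfold N VV
  refine ENNReal.rpow_le_rpow ?_ (by positivity)
  exact le_iSup (fun ε : ℕ → ℤˣ => ∫⁻ x, ‖∑ k ∈ J, ((ε k : ℤ) : ℂ) * Y k x‖ₑ ^ q ∂μ) ε

theorem N_real_le (hq : 1 ≤ q) (Y : ℕ → X → ℂ) (hY : ∀ k, Measurable (Y k)) (J : Finset ℕ)
    (b : ℕ → ℝ) (hb : ∀ k ∈ J, |b k| ≤ 1) :
    N μ q (fun x => ∑ k ∈ J, (b k : ℂ) * Y k x) ≤ (VV μ q Y J) ^ (1 / q) := by
  have := con_real (μ := μ) hq Y hY ((VV μ q Y J) ^ (1 / q)) J (fun _ => 0) measurable_const
    (fun ε => by simpa using N_sign_le (μ := μ) hq Y J ε) b hb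
  simpa using this

end CONaux

open CONaux in
/-- CON: the contraction principle. -/
theorem t_CON : S_CON := by
  intro X _ μ q hq Y hY J a A hA ha
  have hq0 : (0 : ℝ) < q := by linarith
  rcases hA.eq_or_lt with hA0 | hApos
  · subst hA0
    have h0 : ∀ x, ∑ k ∈ J, a k * Y k x = 0 := by
      intro x
      refine Finset.sum_eq_zero fun k hk => ?_
      have := ha k hk
      have : a k = 0 := norm_le_zero_iff.mp this
      rw [this, zero_mul]
    simp [h0, hq0]
  · have m : ∀ b : ℕ → ℝ, Measurable (fun x => ∑ k ∈ J, (b k : ℂ) * Y k x) := fun b =>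
      Finset.measurable_sum _ fun j _ => (hY j).const_mul _
    have e : (fun x => ∑ k ∈ J, a k * Y k x) = fun x =>
        (A : ℂ) * (∑ k ∈ J, (((a k).re / A : ℝ) : ℂ) * Y k x) +
        ((A : ℂ) * Complex.I) * (∑ k ∈ J, (((a k).im / A : ℝ) : ℂ) * Y k x) := by
      funext x
      rw [Finset.mul_sum, Finset.mul_sum, ← Finset.sum_add_distrib]
      refine Finset.sum_congr rfl fun k _ => ?_
      have hA' : (A : ℂ) ≠ 0 := by exact_mod_cast hApos.ne'
      have hak : a k = ((a k).re : ℂ) + ((a k).im : ℂ) * Complex.I := (Complex.re_add_im _).symm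
      conv_lhs => rw [hak]
      push_cast
      field_simp
    have hre : ∀ k ∈ J, |(a k).re / A| ≤ 1 := by
      intro k hk
      rw [abs_div, abs_of_pos hApos, div_le_one hApos]
      exact (Complex.abs_re_le_norm _).trans (ha k hk)
    have him : ∀ k ∈ J, |(a k).im / A| ≤ 1 := by
      intro k hk
      rw [abs_div, abs_of_pos hApos, div_le_one hApos]
      exact (Complex.abs_im_le_norm _).trans (ha k hk)
    have key : N μ q (fun x => ∑ k ∈ J, a k * Y k x) ≤
        ENNReal.ofReal (2 * A) * (VV μ q Y J) ^ (1 / q) := by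
      rw [e]
      refine le_trans (N_add hq ((m _).const_mul _) ((m _).const_mul _)) ?_
      rw [N_smul hq _ (m _), N_smul hq _ (m _)]
      have e1 : ‖(A : ℂ)‖ₑ = ENNReal.ofReal A := by
        rw [← ofReal_norm_eq_enorm, Complex.norm_real, Real.norm_of_nonneg hApos.le]
      have e2 : ‖(A : ℂ) * Complex.I‖ₑ = ENNReal.ofReal A := by
        rw [← ofReal_norm_eq_enorm, norm_mul, Complex.norm_I, mul_one, Complex.norm_real,
          Real.norm_of_nonneg hApos.le]
      rw [e1, e2]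
      have h1 := N_real_le (μ := μ) hq Y hY J (fun k => (a k).re / A) hre
      have h2 := N_real_le (μ := μ) hq Y hY J (fun k => (a k).im / A) him
      calc _ ≤ ENNReal.ofReal A * (VV μ q Y J) ^ (1 / q) +
            ENNReal.ofReal A * (VV μ q Y J) ^ (1 / q) := by gcongr
        _ = ENNReal.ofReal (2 * A) * (VV μ q Y J) ^ (1 / q) := by
            rw [← add_mul, ← ENNReal.ofReal_add hApos.le hApos.le]
            congr 2
            ring
    have k2 := ENNReal.rpow_le_rpow key hq0.le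
    unfold N at k2
    rw [← ENNReal.rpow_mul, ENNReal.mul_rpow_of_nonneg _ _ hq0.le, ← ENNReal.rpow_mul,
      one_div_mul_cancel hq0.ne', ENNReal.rpow_one, ENNReal.rpow_one] at k2
    exact k2

end Pool.Agent.U610.UE
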