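import Pool.Agent.U610.UE.Def

/-!
# Project UE, package FAR: the estimate far from the turning points (helper750)
-/

set_option autoImplicit false

open MeasureTheory Set
open scoped ENNReal

namespace Pool.Agent.U610.UE

theorem t_FAR (hC : S_CON) : S_FAR := by
  intro q γ B hq hγ hB
  obtain ⟨A, hA⟩ : ∃ A : ℝ, A = (3 * B) ^ (((4 : ℕ) : ℝ)⁻¹) := ⟨_, rfl⟩
  have hA0 : 0 < A := by rw [hA]; positivity
  have hγ1 : 0 < γ - 1 := by linarith
  refine ⟨8 ^ (1 - γ) / (γ - 1) * (2 * A) ^ q, by positivity, ?_⟩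
  intro X _ μ _ Y hY ρ w hw J
  have h1 : ∀ t ∈ Ici (8 : ℝ), ENNReal.ofReal (t ^ (-γ)) *
        ∫⁻ x, ‖∑ k ∈ J, (if |t - ρ k| ≤ t / 2 then 0 else w k t) * Y k x‖ₑ ^ q ∂μ ≤
      ENNReal.ofReal (t ^ (-γ)) * (ENNReal.ofReal (2 * A) ^ q * VV μ q Y J) := by
    intro t ht
    rw [mem_Ici] at ht
    refine mul_le_mul_right ?_ _
    refine hC X μ q (by linarith) Y hY J
      (fun k => if |t - ρ k| ≤ t / 2 then 0 else w k t) A hA0.le ?_
    intro k _
    split_ifs with h
    · rw [norm_zero]; exact hA0.le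
    · push Not at h
      have h2 := hw.2 k t ht
      obtain ⟨d, hd⟩ : ∃ d : ℝ, d = |t - ρ k| := ⟨_, rfl⟩
      rw [← hd] at h h2
      have h3 : d ≤ max 1 d := le_max_right _ _
      have hd0 : 0 < d := by linarith
      have h4 : ‖w k t‖ ^ 4 * d ≤ 3 * B * d := by
        have h6 : ‖w k t‖ ^ 4 * d ≤ ‖w k t‖ ^ 4 * max 1 d :=
          mul_le_mul_of_nonneg_left h3 (by positivity)
        have h7 : B * (t + d) ≤ B * (3 * d) := mul_le_mul_of_nonneg_left (by linarith) hB.le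
        linarith
      have h5 : ‖w k t‖ ^ 4 ≤ 3 * B := le_of_mul_le_mul_right h4 hd0
      calc ‖w k t‖ = (‖w k t‖ ^ 4) ^ (((4 : ℕ) : ℝ)⁻¹) :=
            (Real.pow_rpow_inv_natCast (norm_nonneg _) (by norm_num)).symm
        _ ≤ A := by
          rw [hA]
          exact Real.rpow_le_rpow (by positivity) h5 (by positivity)
  have h2 : ∫⁻ t in Ioi (8 : ℝ), ENNReal.ofReal (t ^ (-γ)) =
      ENNReal.ofReal (8 ^ (1 - γ) / (γ - 1)) := by
    have h3 : -γ < -1 := by linarith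
    have h4 : (8 : ℝ) ^ (1 - γ) / (γ - 1) = -8 ^ (-γ + 1) / (-γ + 1) := by
      rw [show -γ + 1 = -(γ - 1) by ring, div_neg, neg_div, neg_neg,
        show -(γ - 1) = 1 - γ by ring]
    rw [h4, ← integral_Ioi_rpow_of_lt h3 (by norm_num), ofReal_integral_eq_lintegral_ofReal
      (integrableOn_Ioi_rpow_of_lt h3 (by norm_num))]
    filter_upwards [ae_restrict_mem measurableSet_Ioi] with t ht
    exact (Real.rpow_pos_of_pos ((by norm_num : (0 : ℝ) < 8).trans ht) _).le
  refine (setLIntegral_mono' measurableSet_Ici h1).trans (le_of_eq ?_)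
  rw [lintegral_mul_const _ (by fun_prop), setLIntegral_congr Ioi_ae_eq_Ici.symm, h2,
    ENNReal.ofReal_rpow_of_nonneg (by positivity) (by linarith),
    ENNReal.ofReal_mul (by positivity), mul_assoc]

end Pool.Agent.U610.UE
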