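import Pool.Agent.U610.UE.Def

set_option autoImplicit false

/-!
# Project UE, package FIB (helper261): the function `VV` is superadditive
-/

open MeasureTheory Set
open scoped ENNReal

namespace Pool.Agent.U610.UE

section

variable {X : Type} [MeasurableSpace X] {μ : Measure X} {q : ℝ} {Y : ℕ → X → ℂ}

theorem fib_meas (hY : ∀ k, Measurable (Y k)) (J : Finset ℕ) (ε : ℕ → ℤˣ) :
    Measurable fun x => ∑ k ∈ J, ((ε k : ℤ) : ℂ) * Y k x :=
  Finset.measurable_sum _ fun k _ => (hY k).const_mul _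

theorem fib_union (hCL : S_CL) (hq : 2 ≤ q) (hY : ∀ k, Measurable (Y k)) {J J' : Finset ℕ}
    (hd : Disjoint J J') : VV μ q Y J + VV μ q Y J' ≤ VV μ q Y (J ∪ J') := by
  classical
  unfold VV
  refine ENNReal.iSup_add_iSup_le fun e e' => ?_
  -- the two choices of signs
  let d : ℕ → ℤˣ := fun k => if k ∈ J then e k else e' k
  let d' : ℕ → ℤˣ := fun k => if k ∈ J then e k else -e' k
  have hF : ∀ x, ∑ k ∈ J ∪ J', ((d k : ℤ) : ℂ) * Y k x =
      (∑ k ∈ J, ((e k : ℤ) : ℂ) * Y k x) + ∑ k ∈ J', ((e' k : ℤ) : ℂ) * Y k x := by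
    intro x
    rw [Finset.sum_union hd]
    congr 1
    · exact Finset.sum_congr rfl fun k hk => by simp only [d, if_pos hk]
    · exact Finset.sum_congr rfl fun k hk => by
        have : k ∉ J := fun h => (Finset.disjoint_left.1 hd h) hk
        simp only [d, if_neg this]
  have hF' : ∀ x, ∑ k ∈ J ∪ J', ((d' k : ℤ) : ℂ) * Y k x =
      (∑ k ∈ J, ((e k : ℤ) : ℂ) * Y k x) - ∑ k ∈ J', ((e' k : ℤ) : ℂ) * Y k x := by
    intro x
    rw [Finset.sum_union hd, sub_eq_add_neg, ← Finset.sum_neg_distrib]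
    congr 1
    · exact Finset.sum_congr rfl fun k hk => by simp only [d', if_pos hk]
    · exact Finset.sum_congr rfl fun k hk => by
        have : k ∉ J := fun h => (Finset.disjoint_left.1 hd h) hk
        simp only [d', if_neg this]
        push_cast
        ring
  have hm1 := (fib_meas hY J e).enorm.pow_const q
  have hm2 := (fib_meas hY J' e').enorm.pow_const q
  have hm3 : Measurable fun x => ‖∑ k ∈ J ∪ J', ((d k : ℤ) : ℂ) * Y k x‖ₑ ^ q :=
    (fib_meas hY (J ∪ J') d).enorm.pow_const q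
  have h1 : 2 * ((∫⁻ x, ‖∑ k ∈ J, ((e k : ℤ) : ℂ) * Y k x‖ₑ ^ q ∂μ) +
      ∫⁻ x, ‖∑ k ∈ J', ((e' k : ℤ) : ℂ) * Y k x‖ₑ ^ q ∂μ) ≤
      2 * ⨆ ε : ℕ → ℤˣ, ∫⁻ x, ‖∑ k ∈ J ∪ J', ((ε k : ℤ) : ℂ) * Y k x‖ₑ ^ q ∂μ := by
    rw [← lintegral_add_left hm1, ← lintegral_const_mul' _ _ (by norm_num)]
    calc ∫⁻ x, 2 * (‖∑ k ∈ J, ((e k : ℤ) : ℂ) * Y k x‖ₑ ^ q +
          ‖∑ k ∈ J', ((e' k : ℤ) : ℂ) * Y k x‖ₑ ^ q) ∂μ
        ≤ ∫⁻ x, (‖∑ k ∈ J ∪ J', ((d k : ℤ) : ℂ) * Y k x‖ₑ ^ q +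
          ‖∑ k ∈ J ∪ J', ((d' k : ℤ) : ℂ) * Y k x‖ₑ ^ q) ∂μ := by
          refine lintegral_mono fun x => ?_
          rw [hF, hF']
          exact hCL q hq _ _
      _ = (∫⁻ x, ‖∑ k ∈ J ∪ J', ((d k : ℤ) : ℂ) * Y k x‖ₑ ^ q ∂μ) +
          ∫⁻ x, ‖∑ k ∈ J ∪ J', ((d' k : ℤ) : ℂ) * Y k x‖ₑ ^ q ∂μ := lintegral_add_left hm3 _
      _ ≤ _ := by
          rw [two_mul]
          exact add_le_add
            (le_iSup (fun ε : ℕ → ℤˣ => ∫⁻ x, ‖∑ k ∈ J ∪ J', ((ε k : ℤ) : ℂ) * Y k x‖ₑ ^ q ∂μ) d)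
            (le_iSup (fun ε : ℕ → ℤˣ => ∫⁻ x, ‖∑ k ∈ J ∪ J', ((ε k : ℤ) : ℂ) * Y k x‖ₑ ^ q ∂μ) d')
  have h2 := mul_le_mul_right h1 (2⁻¹ : ℝ≥0∞)
  rw [← mul_assoc, ← mul_assoc, ENNReal.inv_mul_cancel (by norm_num) (by norm_num), one_mul,
    one_mul] at h2
  exact h2

theorem fib_mono (hCL : S_CL) (hq : 2 ≤ q) (hY : ∀ k, Measurable (Y k)) {J J' : Finset ℕ}
    (h : J ⊆ J') : VV μ q Y J ≤ VV μ q Y J' := by
  classical
  calc VV μ q Y J ≤ VV μ q Y J + VV μ q Y (J' \ J) := le_self_add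
    _ ≤ VV μ q Y (J ∪ (J' \ J)) := fib_union hCL hq hY Finset.disjoint_sdiff
    _ = VV μ q Y J' := by rw [Finset.union_sdiff_of_subset h]

end

theorem t_FIB (hCL : S_CL) : S_FIB := by
  intro X _ μ q hq Y hY f I J
  classical
  have key : ∑ i ∈ I, VV μ q Y (J.filter fun k => f k = i) ≤ VV μ q Y (J.filter fun k => f k ∈ I) := by
    induction I using Finset.induction_on with
    | empty => simp
    | insert a I ha ih =>
      rw [Finset.sum_insert ha]
      have hd : Disjoint (J.filter fun k => f k = a) (J.filter fun k => f k ∈ I) := by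
        rw [Finset.disjoint_left]
        intro k hk hk'
        rw [Finset.mem_filter] at hk hk'
        exact ha (hk.2 ▸ hk'.2)
      calc VV μ q Y (J.filter fun k => f k = a) + ∑ i ∈ I, VV μ q Y (J.filter fun k => f k = i)
          ≤ VV μ q Y (J.filter fun k => f k = a) + VV μ q Y (J.filter fun k => f k ∈ I) := by
            gcongr
        _ ≤ VV μ q Y ((J.filter fun k => f k = a) ∪ (J.filter fun k => f k ∈ I)) :=
            fib_union hCL hq hY hd
        _ = VV μ q Y (J.filter fun k => f k ∈ insert a I) := by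
            congr 1
            ext k
            simp only [Finset.mem_union, Finset.mem_filter, Finset.mem_insert]
            tauto
  exact key.trans (fib_mono hCL hq hY (Finset.filter_subset _ _))

end Pool.Agent.U610.UE
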