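import Pool.Agent.U610.UE.Stm

set_option autoImplicit false

/-!
# Project UE, package FIN: finite sums, polar coordinates (helper423)
-/

open MeasureTheory Set Filter Topology
open scoped ENNReal NNReal

namespace Pool.Agent.U610.UE

open Pool.Agent.N303.SH

theorem t_FIN (hA : S_ABS) (hB : S_BES) (hC : S_CON) : S_FIN := by
  intro c hc q hq2 hq4 hγ
  obtain ⟨B, hB0, hB1⟩ := hB c hc
  obtain ⟨C1, hC10, hC1⟩ := hA q (sc c * (q - 2)) B hq2 hq4 hγ hB0
  set V : ℝ := (sg (c + 2)).real univ with hV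
  have hV0 : 0 ≤ V := measureReal_nonneg
  have hq0 : 0 ≤ q := by linarith
  have hpi : (0 : ℝ) < Real.pi := Real.pi_pos
  set a : ℝ := 4 / Real.pi with ha
  have ha0 : 0 < a := by positivity
  refine ⟨a ^ (c + 1) * a * (2 * V) ^ q + C1, by positivity, fun Y hY J => ?_⟩
  obtain ⟨hYc, hYe⟩ := hY
  have hYm : ∀ k, Measurable (Y k) := fun k => (hYc k).measurable
  -- the transform of the sum
  have hft : ∀ ξ : E (c + 2), ft (fun x => ∑ k ∈ J, Y k x) ξ = ∑ k ∈ J, ft (Y k) ξ := by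
    intro ξ
    unfold ft
    rw [← integral_finsetSum]
    · congr 1
      ext x
      rw [Finset.mul_sum]
    · intro k _
      apply int_cc
      have := hYc k
      fun_prop
  have hftr : ∀ (r : ℝ) (w : S (c + 2)), ft (fun x => ∑ k ∈ J, Y k x) (r • (w : E (c + 2))) =
      ∑ k ∈ J, Ic c k r * Y k w := by
    intro r w
    rw [hft]
    exact Finset.sum_congr rfl fun k _ => hYe k r w
  have hsumc : Continuous fun x : S (c + 2) => ∑ k ∈ J, Y k x :=
    continuous_finsetSum _ fun k _ => hYc k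
  have hmeas : Measurable fun ξ : E (c + 2) => ‖ft (fun x => ∑ k ∈ J, Y k x) ξ‖ₑ ^ q :=
    (ft_cont (int_cc hsumc)).measurable.enorm.pow_const q
  have hGr : ∀ r : ℝ, Measurable fun x : S (c + 2) => ‖∑ k ∈ J, Ic c k r * Y k x‖ₑ ^ q := by
    intro r
    have h : Continuous fun x : S (c + 2) => ∑ k ∈ J, Ic c k r * Y k x :=
      continuous_finsetSum _ fun k _ => continuous_const.mul (hYc k)
    exact h.measurable.enorm.pow_const q
  -- polar coordinates
  have hpol : ∫⁻ ξ, ‖ft (fun x => ∑ k ∈ J, Y k x) ξ‖ₑ ^ q =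
      ∫⁻ r in Ioi (0 : ℝ), ENNReal.ofReal (r ^ (c + 1)) *
        ∫⁻ x, ‖∑ k ∈ J, Ic c k r * Y k x‖ₑ ^ q ∂(sg (c + 2)) := by
    rw [polar (by omega) _ hmeas]
    simp only [hftr]
    have e1 : c + 2 - 1 = c + 1 := by omega
    rw [e1, lintegral_lintegral_swap]
    · refine lintegral_congr fun r => ?_
      rw [lintegral_const_mul _ (hGr r)]
    · apply Measurable.aemeasurable
      have h0 : Continuous fun p : S (c + 2) × ℝ => ∑ k ∈ J, Ic c k p.2 * Y k p.1 :=
        continuous_finsetSum _ fun k _ =>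
          ((Ic_cont c k).comp continuous_snd).mul ((hYc k).comp continuous_fst)
      have h1 : Measurable fun p : S (c + 2) × ℝ => ENNReal.ofReal (p.2 ^ (c + 1)) *
          ‖∑ k ∈ J, Ic c k p.2 * Y k p.1‖ₑ ^ q :=
        ((measurable_snd.pow_const _).ennreal_ofReal).mul (h0.measurable.enorm.pow_const q)
      exact h1
  rw [hpol]
  -- small radii
  have hsmall : ∫⁻ r in Ioo (0 : ℝ) a, ENNReal.ofReal (r ^ (c + 1)) *
      ∫⁻ x, ‖∑ k ∈ J, Ic c k r * Y k x‖ₑ ^ q ∂(sg (c + 2)) ≤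
      ENNReal.ofReal (a ^ (c + 1) * a * (2 * V) ^ q) * VV (sg (c + 2)) q Y J := by
    have h1 : ∀ r ∈ Ioo (0 : ℝ) a, ENNReal.ofReal (r ^ (c + 1)) *
        ∫⁻ x, ‖∑ k ∈ J, Ic c k r * Y k x‖ₑ ^ q ∂(sg (c + 2)) ≤
        ENNReal.ofReal (a ^ (c + 1)) *
          (ENNReal.ofReal (2 * V) ^ q * VV (sg (c + 2)) q Y J) := by
      intro r hr
      refine mul_le_mul' (ENNReal.ofReal_le_ofReal (pow_le_pow_left₀ hr.1.le hr.2.le _)) ?_
      refine hC _ (sg (c + 2)) q (by linarith) Y hYm J (fun k => Ic c k r) V hV0 fun k _ => ?_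
      unfold Ic
      rw [Ik_eq]
      exact Fk_norm_le (on_e c) k _
    calc _ ≤ ∫⁻ r in Ioo (0 : ℝ) a, ENNReal.ofReal (a ^ (c + 1)) *
          (ENNReal.ofReal (2 * V) ^ q * VV (sg (c + 2)) q Y J) :=
          setLIntegral_mono' measurableSet_Ioo h1
      _ = ENNReal.ofReal (a ^ (c + 1)) * (ENNReal.ofReal (2 * V) ^ q * VV (sg (c + 2)) q Y J) *
          ENNReal.ofReal a := by
          rw [setLIntegral_const, Real.volume_Ioo, sub_zero]
      _ = _ := by
          have h2 : ENNReal.ofReal (a ^ (c + 1) * a * (2 * V) ^ q) =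
              ENNReal.ofReal (a ^ (c + 1)) * ENNReal.ofReal a * ENNReal.ofReal (2 * V) ^ q := by
            rw [ENNReal.ofReal_rpow_of_nonneg (by positivity) hq0,
              ← ENNReal.ofReal_mul (by positivity), ← ENNReal.ofReal_mul (by positivity)]
          rw [h2]
          ring
  -- large radii
  set w : ℕ → ℝ → ℂ := fun k t => ((t ^ (sc c) : ℝ) : ℂ) * Fk (e0 c) (e1 c) k t with hw
  have hwm : ∀ k, Measurable (w k) := by
    intro k
    have h1 : Measurable fun t : ℝ => t ^ (sc c) := measurable_id.pow_const _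
    exact (Complex.measurable_ofReal.comp h1).mul (Fk_cont c k).measurable
  have hMult : Mult B (fun k => Real.sqrt (mk c k)) w := by
    refine ⟨hwm, fun k t ht => ?_⟩
    have ht0 : 0 < t := by linarith
    have h1 : ‖w k t‖ ^ 4 = wk c k t ^ 4 := by
      rw [hw]
      simp only
      rw [norm_mul, norm_Fk c k ht0, Complex.norm_real, Real.norm_of_nonneg (by positivity)]
      unfold wk
      rw [mul_pow, mul_pow, Even.pow_abs (by decide)]
    rw [h1]
    exact hB1 k t ht
  have hlarge0 := hC1 (S (c + 2)) (sg (c + 2)) Y hYm (fun k => Real.sqrt (mk c k)) w hMult J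
  set F : ℝ → ℝ≥0∞ := fun t => ENNReal.ofReal (t ^ (-(sc c * (q - 2)))) *
      ∫⁻ x, ‖∑ k ∈ J, w k t * Y k x‖ₑ ^ q ∂(sg (c + 2)) with hF
  have hFm : Measurable F := by
    have h1 : Measurable fun t : ℝ => ENNReal.ofReal (t ^ (-(sc c * (q - 2)))) :=
      (measurable_id.pow_const _).ennreal_ofReal
    have h2 : Measurable fun p : ℝ × S (c + 2) => ‖∑ k ∈ J, w k p.1 * Y k p.2‖ₑ ^ q := by
      refine Measurable.pow_const (Measurable.enorm ?_) q
      refine Finset.measurable_fun_sum _ fun k _ => ?_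
      exact ((hwm k).comp measurable_fst).mul ((hYm k).comp measurable_snd)
    exact h1.mul h2.lintegral_prod_right'
  have hpi2 : (0 : ℝ) < 2 * Real.pi := by positivity
  have hpi1 : (1 : ℝ) ≤ 2 * Real.pi := by linarith [Real.pi_gt_three]
  have hpt : ∀ r : ℝ, (Ici a).indicator (fun r => ENNReal.ofReal (r ^ (c + 1)) *
      ∫⁻ x, ‖∑ k ∈ J, Ic c k r * Y k x‖ₑ ^ q ∂(sg (c + 2))) r ≤
      (Ici (8 : ℝ)).indicator F (2 * Real.pi * r) := by
    intro r
    by_cases hr : r ∈ Ici a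
    · have hr0 : 0 < r := lt_of_lt_of_le ha0 hr
      have hr8 : 8 ≤ 2 * Real.pi * r := by
        have h1 : a ≤ r := hr
        rw [ha, div_le_iff₀ hpi] at h1
        linarith
      set t : ℝ := 2 * Real.pi * r with ht
      have ht0 : 0 < t := by linarith
      rw [indicator_of_mem hr, indicator_of_mem (mem_Ici.2 hr8), hF]
      simp only
      have h1 : ∀ x : S (c + 2), ‖∑ k ∈ J, w k t * Y k x‖ₑ ^ q =
          ENNReal.ofReal (t ^ (sc c * q)) * ‖∑ k ∈ J, Ic c k r * Y k x‖ₑ ^ q := by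
        intro x
        have h2 : ∑ k ∈ J, w k t * Y k x = ((t ^ (sc c) : ℝ) : ℂ) * ∑ k ∈ J, Ic c k r * Y k x := by
          rw [Finset.mul_sum]
          refine Finset.sum_congr rfl fun k _ => ?_
          rw [hw]
          simp only
          unfold Ic
          rw [Ik_eq, mul_assoc]
        rw [h2, enorm_mul, ENNReal.mul_rpow_of_nonneg _ _ hq0]
        congr 1
        rw [← ofReal_norm, Complex.norm_real, Real.norm_of_nonneg (by positivity),
          ENNReal.ofReal_rpow_of_nonneg (by positivity) hq0, ← Real.rpow_mul ht0.le]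
      simp only [h1]
      rw [lintegral_const_mul _ (hGr r), ← mul_assoc, ← ENNReal.ofReal_mul (by positivity),
        ← Real.rpow_add ht0]
      refine mul_le_mul' (ENNReal.ofReal_le_ofReal ?_) le_rfl
      have h3 : -(sc c * (q - 2)) + sc c * q = ((c + 1 : ℕ) : ℝ) := by
        unfold sc
        push_cast
        ring
      rw [h3, Real.rpow_natCast]
      refine pow_le_pow_left₀ hr0.le ?_ _
      rw [ht]
      nlinarith
    · rw [indicator_of_notMem hr]
      exact zero_le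
  have hlarge : ∫⁻ r in Ici a, ENNReal.ofReal (r ^ (c + 1)) *
      ∫⁻ x, ‖∑ k ∈ J, Ic c k r * Y k x‖ₑ ^ q ∂(sg (c + 2)) ≤
      ENNReal.ofReal C1 * VV (sg (c + 2)) q Y J := by
    rw [← lintegral_indicator measurableSet_Ici]
    refine (lintegral_mono hpt).trans ?_
    have hm : Measurable ((Ici (8 : ℝ)).indicator F) := hFm.indicator measurableSet_Ici
    have e3 := lintegral_map hm (measurable_const_mul (2 * Real.pi)) (μ := (volume : Measure ℝ))
    rw [Real.map_volume_mul_left hpi2.ne', lintegral_smul_measure] at e3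
    rw [← e3, smul_eq_mul]
    have h4 : ENNReal.ofReal |(2 * Real.pi)⁻¹| ≤ 1 := by
      rw [abs_of_pos (by positivity), ← ENNReal.ofReal_one]
      apply ENNReal.ofReal_le_ofReal
      exact inv_le_one_of_one_le₀ hpi1
    calc _ ≤ 1 * ∫⁻ a, (Ici (8 : ℝ)).indicator F a := mul_le_mul' h4 le_rfl
      _ = ∫⁻ t in Ici (8 : ℝ), F t := by rw [one_mul, lintegral_indicator measurableSet_Ici]
      _ ≤ _ := hlarge0
  have hsub : Ioi (0 : ℝ) ⊆ Ioo (0 : ℝ) a ∪ Ici a := by
    intro r hr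
    rcases lt_or_ge r a with h | h
    · exact Or.inl ⟨hr, h⟩
    · exact Or.inr h
  calc _ ≤ ∫⁻ r in Ioo (0 : ℝ) a ∪ Ici a, ENNReal.ofReal (r ^ (c + 1)) *
        ∫⁻ x, ‖∑ k ∈ J, Ic c k r * Y k x‖ₑ ^ q ∂(sg (c + 2)) := lintegral_mono_set hsub
    _ ≤ _ := lintegral_union_le _ _ _
    _ ≤ ENNReal.ofReal (a ^ (c + 1) * a * (2 * V) ^ q) * VV (sg (c + 2)) q Y J +
        ENNReal.ofReal C1 * VV (sg (c + 2)) q Y J := add_le_add hsmall hlarge
    _ = _ := by rw [← add_mul, ← ENNReal.ofReal_add (by positivity) hC10.le]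

end Pool.Agent.U610.UE
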