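import Pool.Agent.U610.UE.Stm

set_option autoImplicit false

/-!
# Project UE, package LIM: infinite sums and all exponents
-/

open MeasureTheory Set Filter Topology
open scoped ENNReal NNReal

namespace Pool.Agent.U610.UE

open Pool.Agent.N303.SH

theorem ft_sub_enorm_le {n : ℕ} {g h : S n → ℂ} (hg : Integrable g (sg n))
    (hh : Integrable h (sg n)) (ξ : E n) :
    ‖ft g ξ - ft h ξ‖ₑ ≤ ∫⁻ x, ‖g x - h x‖ₑ ∂(sg n) := by
  have hc : Continuous fun x : S n =>
      Complex.exp (-(2 * Real.pi * inner ℝ (x : E n) ξ : ℝ) * Complex.I) := by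
    fun_prop
  have hb : ∀ x : S n, ‖Complex.exp (-(2 * Real.pi * inner ℝ (x : E n) ξ : ℝ) * Complex.I)‖ ≤ 1 := by
    intro x
    rw [← Complex.ofReal_neg, Complex.norm_exp_ofReal_mul_I]
  have e1 : ∀ {f : S n → ℂ}, Integrable f (sg n) → Integrable (fun x : S n =>
      Complex.exp (-(2 * Real.pi * inner ℝ (x : E n) ξ : ℝ) * Complex.I) * f x) (sg n) := by
    intro f hf
    exact hf.bdd_mul hc.aestronglyMeasurable (Eventually.of_forall hb)
  have e2 : ft g ξ - ft h ξ = ft (fun x => g x - h x) ξ := by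
    unfold ft
    rw [← integral_sub (e1 hg) (e1 hh)]
    apply integral_congr_ae
    refine Eventually.of_forall fun x => ?_
    simp only
    ring
  rw [e2]
  exact ft_enorm_le _ ξ

theorem t_LIM (hF : S_FIN) : S_LIM := by
  intro c hc q hq
  have hc' : (1:ℝ) ≤ c := by exact_mod_cast hc
  have hcp : (0:ℝ) < (c : ℝ) + 1 := by linarith
  have h23 : 2 + 2 / ((c : ℝ) + 1) ≤ 3 := by
    have : 2 / ((c : ℝ) + 1) ≤ 1 := by rw [div_le_one hcp]; linarith
    linarith
  obtain ⟨q1, h01, h1m⟩ : ∃ q1, 2 + 2 / ((c : ℝ) + 1) < q1 ∧ q1 < min q 4 :=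
    exists_between (lt_min hq (by linarith))
  have h1q : q1 < q := h1m.trans_le (min_le_left _ _)
  have h14 : q1 < 4 := h1m.trans_le (min_le_right _ _)
  have h2u0 : 0 < 2 / ((c : ℝ) + 1) := div_pos two_pos hcp
  have h12 : 2 < q1 := by linarith
  have hη : 1 < sc c * (q1 - 2) := by
    have h3 : 2 / ((c : ℝ) + 1) < q1 - 2 := by linarith
    rw [div_lt_iff₀ hcp] at h3
    unfold sc
    linarith
  obtain ⟨C1, hC10, hC1⟩ := hF c hc q1 h12 h14 hη
  set V : ℝ≥0∞ := sg (c + 2) univ with hV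
  have hVt : V ≠ ∞ := measure_ne_top _ _
  have hV0 : V ≠ 0 := by
    have := V_pos c
    intro h
    rw [Measure.real, ← hV, h] at this
    simp at this
  set V1 : ℝ≥0∞ := V ^ (1 / 1 - 1 / q) with hV1
  set V2 : ℝ≥0∞ := V ^ (1 / q1 - 1 / q) with hV2
  have hV1t : V1 ≠ ∞ := ENNReal.rpow_ne_top_of_ne_zero hV0 hVt
  have hV2t : V2 ≠ ∞ := ENNReal.rpow_ne_top_of_ne_zero hV0 hVt
  set W : ℝ≥0∞ := V1 ^ (q - q1) * (ENNReal.ofReal C1 * V2 ^ q1) with hW
  have hWt : W ≠ ∞ := by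
    rw [hW]
    exact ENNReal.mul_ne_top (ENNReal.rpow_ne_top_of_nonneg (by linarith) hV1t)
      (ENNReal.mul_ne_top ENNReal.ofReal_ne_top (ENNReal.rpow_ne_top_of_nonneg (by linarith) hV2t))
  have hqp : 0 < q := by linarith
  have hWt2 : W ^ (1 / q) ≠ ∞ := ENNReal.rpow_ne_top_of_nonneg (by positivity) hWt
  have hqe : (ENNReal.ofReal q) ≠ 0 := by
    rw [Ne, ENNReal.ofReal_eq_zero]; linarith
  refine ⟨(W ^ (1 / q)).toNNReal + 1, fun Y g M hY hM hg hlim => ?_⟩
  rcases eq_or_ne M ∞ with rfl | hMt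
  · rw [ENNReal.mul_top (by simp)]
    exact le_top
  -- partial sums
  set T : ℕ → S (c + 2) → ℂ := fun N x => ∑ k ∈ Finset.range N, Y k x with hT
  have hTc : ∀ N, Continuous (T N) := by
    intro N
    exact continuous_finsetSum _ fun k _ => hY.1 k
  have hTi : ∀ N, Integrable (T N) (sg (c + 2)) := fun N =>
    (hTc N).integrable_of_hasCompactSupport (HasCompactSupport.of_compactSpace _)
  have hM1 : ∀ N, eLpNorm' (T N) q (sg (c + 2)) ≤ M := by
    intro N
    have h := hM (Finset.range N) (fun _ => 1)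
    rw [eLpNorm_eq_eLpNorm' hqe ENNReal.ofReal_ne_top, ENNReal.toReal_ofReal hqp.le] at h
    simpa [hT] using h
  have b1 : ∀ N ξ, ‖ft (T N) ξ‖ₑ ≤ M * V1 := by
    intro N ξ
    refine (ft_enorm_le (T N) ξ).trans ?_
    have := eLpNorm'_le_eLpNorm'_mul_rpow_measure_univ (p := 1) (q := q) one_pos (by linarith)
      (hTc N).aestronglyMeasurable (μ := sg (c + 2))
    refine le_trans (le_of_eq ?_) (this.trans (mul_le_mul' (hM1 N) le_rfl))
    unfold eLpNorm'
    simp
  have b2 : ∀ N, VV (sg (c + 2)) q1 Y (Finset.range N) ≤ (M * V2) ^ q1 := by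
    intro N
    unfold VV
    refine iSup_le fun ε => ?_
    have hcε : Continuous fun x => ∑ k ∈ Finset.range N, ((ε k : ℤ) : ℂ) * Y k x :=
      continuous_finsetSum _ fun k _ => continuous_const.mul (hY.1 k)
    have h3 := eLpNorm'_le_eLpNorm'_mul_rpow_measure_univ (p := q1) (q := q) (by linarith) h1q.le
      hcε.aestronglyMeasurable (μ := sg (c + 2))
    have h5 := hM (Finset.range N) ε
    rw [eLpNorm_eq_eLpNorm' hqe ENNReal.ofReal_ne_top, ENNReal.toReal_ofReal hqp.le] at h5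
    have h4 := ENNReal.rpow_le_rpow (h3.trans (mul_le_mul' h5 le_rfl)) (by linarith : 0 ≤ q1)
    refine le_trans (le_of_eq ?_) h4
    unfold eLpNorm'
    rw [← ENNReal.rpow_mul, one_div_mul_cancel (by linarith), ENNReal.rpow_one]
  -- convergence of the transforms
  have hconv : ∀ ξ, Tendsto (fun N => ft (T N) ξ) atTop (𝓝 (ft g ξ)) := by
    intro ξ
    rw [tendsto_iff_edist_tendsto_0]
    refine tendsto_of_tendsto_of_tendsto_of_le_of_le tendsto_const_nhds hlim
      (fun _ => bot_le) fun N => ?_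
    show edist (ft (T N) ξ) (ft g ξ) ≤ _
    rw [edist_comm, edist_eq_enorm_sub]
    exact ft_sub_enorm_le hg (hTi N) ξ
  have hft : Measurable (ft g) := (ft_cont hg).measurable
  have b3 : ∀ ξ, ‖ft g ξ‖ₑ ≤ M * V1 := fun ξ =>
    le_of_tendsto (hconv ξ).enorm (Eventually.of_forall fun N => b1 N ξ)
  have b4 : ∫⁻ ξ, ‖ft g ξ‖ₑ ^ q1 ≤ ENNReal.ofReal C1 * (M * V2) ^ q1 := by
    calc ∫⁻ ξ, ‖ft g ξ‖ₑ ^ q1 = ∫⁻ ξ, liminf (fun N => ‖ft (T N) ξ‖ₑ ^ q1) atTop := by
          apply lintegral_congr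
          intro ξ
          exact (((ENNReal.continuous_rpow_const).tendsto _).comp (hconv ξ).enorm).liminf_eq.symm
      _ ≤ liminf (fun N => ∫⁻ ξ, ‖ft (T N) ξ‖ₑ ^ q1) atTop :=
          lintegral_liminf_le fun N => (ft_cont (hTi N)).measurable.enorm.pow_const _
      _ ≤ ENNReal.ofReal C1 * (M * V2) ^ q1 := by
          refine (liminf_le_liminf (Eventually.of_forall fun N => ?_)).trans
            (liminf_const _).le
          exact (hC1 Y hY (Finset.range N)).trans (mul_le_mul' le_rfl (b2 N))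
  rw [eLpNorm_eq_eLpNorm' hqe ENNReal.ofReal_ne_top, ENNReal.toReal_ofReal hqp.le]
  have b5 : ∫⁻ ξ, ‖ft g ξ‖ₑ ^ q ≤ M ^ q * W := by
    calc ∫⁻ ξ, ‖ft g ξ‖ₑ ^ q = ∫⁻ ξ, ‖ft g ξ‖ₑ ^ (q - q1) * ‖ft g ξ‖ₑ ^ q1 := by
          apply lintegral_congr
          intro ξ
          rw [← ENNReal.rpow_add_of_nonneg _ _ (by linarith) (by linarith)]
          congr 1
          ring
      _ ≤ ∫⁻ ξ, (M * V1) ^ (q - q1) * ‖ft g ξ‖ₑ ^ q1 := by
          apply lintegral_mono
          intro ξ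
          exact mul_le_mul' (ENNReal.rpow_le_rpow (b3 ξ) (by linarith)) le_rfl
      _ = (M * V1) ^ (q - q1) * ∫⁻ ξ, ‖ft g ξ‖ₑ ^ q1 := by
          rw [lintegral_const_mul]
          exact hft.enorm.pow_const _
      _ ≤ (M * V1) ^ (q - q1) * (ENNReal.ofReal C1 * (M * V2) ^ q1) :=
          mul_le_mul' le_rfl b4
      _ = M ^ q * W := by
          rw [ENNReal.mul_rpow_of_nonneg _ _ (by linarith), ENNReal.mul_rpow_of_nonneg _ _ (by linarith),
            show M ^ q = M ^ (q - q1) * M ^ q1 by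
              rw [← ENNReal.rpow_add_of_nonneg _ _ (by linarith) (by linarith)]
              congr 1; ring, hW]
          ring
  have b6 := ENNReal.rpow_le_rpow b5 (by positivity : 0 ≤ 1 / q)
  rw [ENNReal.mul_rpow_of_nonneg _ _ (by positivity), ← ENNReal.rpow_mul, mul_one_div_cancel hqp.ne',
    ENNReal.rpow_one, mul_comm] at b6
  refine le_trans b6 (mul_le_mul' ?_ le_rfl)
  rw [ENNReal.coe_add, ENNReal.coe_toNNReal hWt2]
  exact le_self_add

end Pool.Agent.U610.UE
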