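import Pool.Agent.U610.UE.Def

set_option autoImplicit false

/-!
# Project UE, package WIN: the estimate for one window
-/

open MeasureTheory Set
open scoped ENNReal

namespace Pool.Agent.U610.UE

/-- In the window number `j` the time `t` is at least `2 ^ j`. -/
theorem near_time {ρ : ℕ → ℝ} {t : ℝ} {j k : ℕ} (ht : 8 ≤ t) (h : near ρ t j k) : (2 : ℝ) ^ j ≤ t := by
  obtain ⟨h1, h2, h3⟩ := h
  refine h2.trans (max_le (by linarith) (by linarith))

/-- The cell of `ρ k` is near the cell of `t`. -/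
theorem near_cell {ρ : ℕ → ℝ} {t : ℝ} {j k : ℕ} (h : near ρ t j k) :
    ∃ e ∈ ({-1, 0, 1} : Finset ℤ), ⌊ρ k / (2 : ℝ) ^ (j + 1)⌋ = ⌊t / (2 : ℝ) ^ (j + 1)⌋ + e := by
  obtain ⟨h1, h2, h3⟩ := h
  have hL : (0 : ℝ) < 2 ^ (j + 1) := by positivity
  have h4 : |t - ρ k| < 2 ^ (j + 1) := lt_of_le_of_lt (le_max_right _ _) h3
  rw [abs_lt] at h4
  set a := t / (2 : ℝ) ^ (j + 1) with ha
  set b := ρ k / (2 : ℝ) ^ (j + 1) with hb
  have h5 : a - b < 1 := by
    rw [ha, hb, ← sub_div, div_lt_one hL]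
    exact h4.2
  have h6 : b - a < 1 := by
    rw [ha, hb, ← sub_div, div_lt_one hL]
    linarith [h4.1]
  have e1 := Int.floor_le a
  have e2 := Int.lt_floor_add_one a
  have e3 := Int.floor_le b
  have e4 := Int.lt_floor_add_one b
  have e5 : (⌊b⌋ : ℝ) < (⌊a⌋ : ℝ) + 2 := by linarith
  have e6 : (⌊a⌋ : ℝ) < (⌊b⌋ : ℝ) + 2 := by linarith
  have e7 : ⌊b⌋ < ⌊a⌋ + 2 := by exact_mod_cast e5
  have e8 : ⌊a⌋ < ⌊b⌋ + 2 := by exact_mod_cast e6
  refine ⟨⌊b⌋ - ⌊a⌋, ?_, by ring⟩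
  rw [Finset.mem_insert, Finset.mem_insert, Finset.mem_singleton]
  omega

/-- The size of the multiplier in the window. -/
theorem near_size {ρ : ℕ → ℝ} {w : ℕ → ℝ → ℂ} {B : ℝ} (hB : 0 < B) (hM : Mult B ρ w) {t : ℝ} {j k : ℕ}
    (ht : 8 ≤ t) (h : near ρ t j k) : ‖w k t‖ ≤ (2 * B * t / 2 ^ j) ^ (1 / 4 : ℝ) := by
  have h0 := hM.2 k t ht
  obtain ⟨h1, h2, h3⟩ := h
  have h4 : ‖w k t‖ ^ 4 * 2 ^ j ≤ 2 * B * t := by
    calc ‖w k t‖ ^ 4 * 2 ^ j ≤ ‖w k t‖ ^ 4 * max 1 |t - ρ k| :=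
          mul_le_mul_of_nonneg_left h2 (by positivity)
      _ ≤ B * (t + |t - ρ k|) := h0
      _ ≤ B * (t + t / 2) := mul_le_mul_of_nonneg_left (by linarith) hB.le
      _ ≤ 2 * B * t := by nlinarith
  have h5 : ‖w k t‖ ^ 4 ≤ 2 * B * t / 2 ^ j := by
    rw [le_div_iff₀ (by positivity)]
    exact h4
  have h6 : ‖w k t‖ = (‖w k t‖ ^ 4) ^ (1 / 4 : ℝ) := by
    rw [← Real.rpow_natCast, ← Real.rpow_mul (norm_nonneg _)]
    norm_num
  rw [h6]
  exact Real.rpow_le_rpow (by positivity) h5 (by norm_num)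

theorem power_bound {q γ B t s : ℝ} (_hq : 2 < q) (hq4 : q < 4) (hγ : 1 < γ) (hB : 0 < B) (hs : 0 < s)
    (hst : s ≤ t) :
    t ^ (-γ) * (2 * (2 * B * t / s) ^ (1 / 4 : ℝ)) ^ q ≤ 2 ^ q * (2 * B) ^ (q / 4) * s ^ (-γ) := by
  have ht : 0 < t := lt_of_lt_of_le hs hst
  have e1 : (2 * (2 * B * t / s) ^ (1 / 4 : ℝ)) ^ q = 2 ^ q * ((2 * B) ^ (q / 4) * (t ^ (q / 4) * s ^ (-(q / 4)))) := by
    rw [Real.mul_rpow (by norm_num) (by positivity), ← Real.rpow_mul (by positivity)]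
    have e2 : (1 / 4 : ℝ) * q = q / 4 := by ring
    rw [e2, mul_div_assoc, Real.mul_rpow (by positivity) (by positivity), Real.div_rpow ht.le hs.le,
      Real.rpow_neg hs.le]
    ring
  have e3 : t ^ (-γ) * t ^ (q / 4) ≤ s ^ (-γ) * s ^ (q / 4) := by
    rw [← Real.rpow_add ht, ← Real.rpow_add hs]
    exact Real.rpow_le_rpow_of_nonpos hs hst (by linarith)
  have e4 : s ^ (q / 4) * s ^ (-(q / 4)) = 1 := by
    rw [← Real.rpow_add hs, add_neg_cancel, Real.rpow_zero]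
  rw [e1]
  calc t ^ (-γ) * (2 ^ q * ((2 * B) ^ (q / 4) * (t ^ (q / 4) * s ^ (-(q / 4)))))
      = 2 ^ q * (2 * B) ^ (q / 4) * (t ^ (-γ) * t ^ (q / 4)) * s ^ (-(q / 4)) := by ring
    _ ≤ 2 ^ q * (2 * B) ^ (q / 4) * (s ^ (-γ) * s ^ (q / 4)) * s ^ (-(q / 4)) := by gcongr
    _ = 2 ^ q * (2 * B) ^ (q / 4) * s ^ (-γ) * (s ^ (q / 4) * s ^ (-(q / 4))) := by ring
    _ = _ := by rw [e4, mul_one]

open Classical in
/-- The sum over the window is a sum over three cells. -/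
theorem split_cells {X : Type} (Y : ℕ → X → ℂ) (ρ : ℕ → ℝ) (w : ℕ → ℝ → ℂ) (J : Finset ℕ) (j : ℕ)
    (t : ℝ) (x : X) :
    ∑ k ∈ J, (if near ρ t j k then w k t else 0) * Y k x =
      ∑ e ∈ ({-1, 0, 1} : Finset ℤ), ∑ k ∈ J.filter (fun k => ⌊ρ k / (2 : ℝ) ^ (j + 1)⌋ =
        ⌊t / (2 : ℝ) ^ (j + 1)⌋ + e), (if near ρ t j k then w k t else 0) * Y k x := by
  simp only [Finset.sum_filter]
  rw [Finset.sum_comm]
  refine Finset.sum_congr rfl fun k _ => ?_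
  by_cases h : near ρ t j k
  · obtain ⟨e, he, hk⟩ := near_cell h
    rw [Finset.sum_eq_single e]
    · rw [if_pos hk]
    · intro e' _ hne
      rw [if_neg]
      intro h'
      apply hne
      omega
    · intro hne
      exact absurd he hne
  · simp [h]

theorem t_WIN (hF : S_FIB) (hC : S_CON) (hE : S_CELL) : S_WIN := by
  classical
  intro q γ B hq hq4 hγ hB
  have hq0 : 0 < q := by linarith
  refine ⟨3 ^ (q - 1) * 2 ^ q * (2 * B) ^ (q / 4) * 6, by positivity, ?_⟩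
  intro X _ μ _ Y hY ρ w hM J j
  set s : ℝ := (2 : ℝ) ^ j with hs_def
  have hs : 0 < s := by positivity
  have hL : (2 : ℝ) ^ (j + 1) = 2 * s := by rw [hs_def]; ring
  have hL0 : (0 : ℝ) < 2 ^ (j + 1) := by positivity
  set Φ : ℤ → ℝ≥0∞ := fun i => VV μ q Y (J.filter fun k => ⌊ρ k / (2 : ℝ) ^ (j + 1)⌋ = i) with hΦ
  set K : ℝ≥0∞ := ENNReal.ofReal (3 ^ (q - 1) * (2 ^ q * (2 * B) ^ (q / 4) * s ^ (-γ))) with hK
  -- the pointwise bound
  have key : ∀ t : ℝ, 8 ≤ t → ENNReal.ofReal (t ^ (-γ)) *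
      ∫⁻ x, ‖∑ k ∈ J, (if near ρ t j k then w k t else 0) * Y k x‖ₑ ^ q ∂μ ≤
      K * ∑ e ∈ ({-1, 0, 1} : Finset ℤ), Φ (⌊t / (2 : ℝ) ^ (j + 1)⌋ + e) := by
    intro t ht
    have ht0 : 0 < t := by linarith
    by_cases hst : s ≤ t
    · set Λ : ℝ := (2 * B * t / s) ^ (1 / 4 : ℝ) with hΛ
      have hΛ0 : 0 ≤ Λ := by positivity
      have hmeas : ∀ T : Finset ℕ, Measurable fun x =>
          ‖∑ k ∈ T, (if near ρ t j k then w k t else 0) * Y k x‖ₑ ^ q := by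
        intro T
        refine Measurable.pow_const (Measurable.enorm ?_) q
        exact Finset.measurable_sum _ fun k _ => (hY k).const_mul _
      have h1 : ∫⁻ x, ‖∑ k ∈ J, (if near ρ t j k then w k t else 0) * Y k x‖ₑ ^ q ∂μ ≤
          (3 : ℝ≥0∞) ^ (q - 1) * ∑ e ∈ ({-1, 0, 1} : Finset ℤ), ENNReal.ofReal (2 * Λ) ^ q *
            Φ (⌊t / (2 : ℝ) ^ (j + 1)⌋ + e) := by
        calc ∫⁻ x, ‖∑ k ∈ J, (if near ρ t j k then w k t else 0) * Y k x‖ₑ ^ q ∂μ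
            ≤ ∫⁻ x, (3 : ℝ≥0∞) ^ (q - 1) * ∑ e ∈ ({-1, 0, 1} : Finset ℤ),
              ‖∑ k ∈ J.filter (fun k => ⌊ρ k / (2 : ℝ) ^ (j + 1)⌋ = ⌊t / (2 : ℝ) ^ (j + 1)⌋ + e),
                (if near ρ t j k then w k t else 0) * Y k x‖ₑ ^ q ∂μ := by
              refine lintegral_mono fun x => ?_
              rw [split_cells Y ρ w J j t x]
              refine (ENNReal.rpow_le_rpow (enorm_sum_le _ _) hq0.le).trans ?_
              have h2 := ENNReal.rpow_sum_le_const_mul_sum_rpow ({-1, 0, 1} : Finset ℤ)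
                (fun e => ‖∑ k ∈ J.filter (fun k => ⌊ρ k / (2 : ℝ) ^ (j + 1)⌋ =
                  ⌊t / (2 : ℝ) ^ (j + 1)⌋ + e),
                  (if near ρ t j k then w k t else 0) * Y k x‖ₑ) (p := q) (by linarith)
              have h3 : (({-1, 0, 1} : Finset ℤ).card : ℝ≥0∞) = 3 := by
                have : ({-1, 0, 1} : Finset ℤ).card = 3 := by decide
                rw [this]
                norm_num
              rw [h3] at h2
              exact h2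
          _ = (3 : ℝ≥0∞) ^ (q - 1) * ∑ e ∈ ({-1, 0, 1} : Finset ℤ), ∫⁻ x,
              ‖∑ k ∈ J.filter (fun k => ⌊ρ k / (2 : ℝ) ^ (j + 1)⌋ = ⌊t / (2 : ℝ) ^ (j + 1)⌋ + e),
                (if near ρ t j k then w k t else 0) * Y k x‖ₑ ^ q ∂μ := by
              rw [lintegral_const_mul _ (Finset.measurable_sum _ fun e _ => hmeas _),
                lintegral_finsetSum _ fun e _ => hmeas _]
          _ ≤ _ := by
              gcongr with e he
              refine hC X μ q (by linarith) Y hY _ (fun k => if near ρ t j k then w k t else 0) Λ hΛ0 ?_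
              intro k _
              show ‖(if near ρ t j k then w k t else 0 : ℂ)‖ ≤ Λ
              split_ifs with hk
              · exact near_size hB hM ht hk
              · rw [norm_zero]
                exact hΛ0
      refine (mul_le_mul_right h1 _).trans ?_
      rw [← Finset.mul_sum]
      have h4 : ENNReal.ofReal (t ^ (-γ)) * ((3 : ℝ≥0∞) ^ (q - 1) * (ENNReal.ofReal (2 * Λ) ^ q *
          ∑ e ∈ ({-1, 0, 1} : Finset ℤ), Φ (⌊t / (2 : ℝ) ^ (j + 1)⌋ + e))) =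
          ((3 : ℝ≥0∞) ^ (q - 1) * (ENNReal.ofReal (t ^ (-γ)) * ENNReal.ofReal (2 * Λ) ^ q)) *
          ∑ e ∈ ({-1, 0, 1} : Finset ℤ), Φ (⌊t / (2 : ℝ) ^ (j + 1)⌋ + e) := by ring
      rw [h4]
      refine mul_le_mul_left ?_ _
      have hK' : K = ENNReal.ofReal (3 ^ (q - 1)) *
          ENNReal.ofReal (2 ^ q * (2 * B) ^ (q / 4) * s ^ (-γ)) := by
        rw [hK, ENNReal.ofReal_mul (by positivity)]
      rw [hK']
      have h5 : (3 : ℝ≥0∞) ^ (q - 1) = ENNReal.ofReal (3 ^ (q - 1)) := by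
        rw [← ENNReal.ofReal_rpow_of_pos (by norm_num)]
        norm_num
      rw [h5]
      refine mul_le_mul_right ?_ _
      rw [ENNReal.ofReal_rpow_of_nonneg (by positivity) hq0.le, ← ENNReal.ofReal_mul (by positivity)]
      exact ENNReal.ofReal_le_ofReal (power_bound hq hq4 hγ hB hs hst)
    · -- all coefficients are zero
      have h0 : ∀ k, ¬ near ρ t j k := fun k hk => hst (near_time ht hk)
      have h1 : ∫⁻ x, ‖∑ k ∈ J, (if near ρ t j k then w k t else 0) * Y k x‖ₑ ^ q ∂μ = 0 := by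
        simp [h0, hq0]
      rw [h1, mul_zero]
      exact zero_le
  -- integration
  have hmΦ : ∀ e : ℤ, Measurable fun t : ℝ => Φ (⌊t / (2 : ℝ) ^ (j + 1)⌋ + e) := by
    intro e
    have h1 : Measurable fun i : ℤ => Φ (i + e) := measurable_of_countable _
    exact h1.comp (Int.measurable_floor.comp (measurable_id.div_const _))
  have hsum : ∑' i, Φ i ≤ VV μ q Y J := by
    rw [ENNReal.tsum_eq_iSup_sum]
    exact iSup_le fun I => hF X μ q hq.le Y hY _ I J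
  calc ∫⁻ t in Ici (8 : ℝ), ENNReal.ofReal (t ^ (-γ)) *
        ∫⁻ x, ‖∑ k ∈ J, (if near ρ t j k then w k t else 0) * Y k x‖ₑ ^ q ∂μ
      ≤ ∫⁻ t in Ici (8 : ℝ), K * ∑ e ∈ ({-1, 0, 1} : Finset ℤ), Φ (⌊t / (2 : ℝ) ^ (j + 1)⌋ + e) := by
        refine setLIntegral_mono' measurableSet_Ici fun t ht => key t ht
    _ ≤ ∫⁻ t : ℝ, K * ∑ e ∈ ({-1, 0, 1} : Finset ℤ), Φ (⌊t / (2 : ℝ) ^ (j + 1)⌋ + e) :=
        lintegral_mono' Measure.restrict_le_self le_rfl
    _ = K * ∑ e ∈ ({-1, 0, 1} : Finset ℤ), ∫⁻ t : ℝ, Φ (⌊t / (2 : ℝ) ^ (j + 1)⌋ + e) := by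
        rw [lintegral_const_mul _ (Finset.measurable_sum _ fun e _ => hmΦ e),
          lintegral_finsetSum _ fun e _ => hmΦ e]
    _ = K * ∑ e ∈ ({-1, 0, 1} : Finset ℤ), ENNReal.ofReal (2 ^ (j + 1)) * ∑' i, Φ i := by
        congr 1
        refine Finset.sum_congr rfl fun e _ => ?_
        exact hE Φ _ hL0 e
    _ ≤ K * ∑ e ∈ ({-1, 0, 1} : Finset ℤ), ENNReal.ofReal (2 ^ (j + 1)) * VV μ q Y J := by
        gcongr
    _ = K * (3 * ENNReal.ofReal (2 ^ (j + 1))) * VV μ q Y J := by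
        rw [Finset.sum_const]
        have : ({-1, 0, 1} : Finset ℤ).card = 3 := by decide
        rw [this, nsmul_eq_mul]
        push_cast
        ring
    _ = ENNReal.ofReal (3 ^ (q - 1) * 2 ^ q * (2 * B) ^ (q / 4) * 6 * s ^ (1 - γ)) * VV μ q Y J := by
        congr 1
        have h3 : (3 : ℝ≥0∞) = ENNReal.ofReal 3 := by norm_num
        rw [hK, h3, ← ENNReal.ofReal_mul (by norm_num), ← ENNReal.ofReal_mul (by positivity)]
        congr 1
        rw [hL]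
        have h6 : s ^ (1 - γ) = s * s ^ (-γ) := by
          rw [sub_eq_add_neg, Real.rpow_add hs, Real.rpow_one]
        rw [h6]
        ring

end Pool.Agent.U610.UE
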