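import Pool.Agent.U610.UE.T_CL
import Pool.Agent.U610.UE.T_FIB
import Pool.Agent.U610.UE.T_CON
import Pool.Agent.U610.UE.T_CELL
import Pool.Agent.U610.UE.T_WIN
import Pool.Agent.U610.UE.T_FAR
import Pool.Agent.U610.UE.T_ABS
import Pool.Agent.U610.UE.T_BES
import Pool.Agent.U610.UE.T_FIN
import Pool.Agent.U610.UE.T_LIM

set_option autoImplicit false

/-! Assembly of project UE. -/

namespace Pool.Agent.U610.UE

theorem s_abs : S_ABS := t_ABS (t_WIN (t_FIB t_CL) t_CON t_CELL) (t_FAR t_CON)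

theorem s_lim : S_LIM := t_LIM (t_FIN s_abs t_BES t_CON)

end Pool.Agent.U610.UE
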