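import Pool.Agent.U610.UE.Stm2

set_option autoImplicit false

/-!
# Project UE2, package BLE: decay for sums of high degrees (helper312, after helper423's T_FIN)
-/

open MeasureTheory Set Filter Topology
open scoped ENNReal NNReal

namespace Pool.Agent.U610.UE

open Pool.Agent.N303.SH

/-- polar coordinates and the substitution `t = 2 π r` -/
theorem ble_polar {c : ℕ} {q : ℝ} (hq2 : 2 < q) {Y : ℕ → S (c + 2) → ℂ} (hY : Eig c Y)
    (J : Finset ℕ) :
    ∫⁻ ξ, ‖ft (fun x => ∑ k ∈ J, Y k x) ξ‖ₑ ^ q ≤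
      ∫⁻ t in Ioi (0 : ℝ), ENNReal.ofReal (t ^ (-(sc c * (q - 2)))) *
        ∫⁻ x, ‖∑ k ∈ J, (((t ^ (sc c) : ℝ) : ℂ) * Fk (e0 c) (e1 c) k t) * Y k x‖ₑ ^ q
          ∂(sg (c + 2)) := by
  have hq0 : 0 ≤ q := by linarith
  have hpi : (0 : ℝ) < Real.pi := Real.pi_pos
  obtain ⟨hYc, hYe⟩ := hY
  have hYm : ∀ k, Measurable (Y k) := fun k => (hYc k).measurable
  -- the transform of the sum
  have hft : ∀ ξ : E (c + 2), ft (fun x => ∑ k ∈ J, Y k x) ξ = ∑ k ∈ J, ft (Y k) ξ := by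
    intro ξ
    unfold ft
    rw [← integral_finsetSum]
    · congr 1
      ext x
      rw [Finset.mul_sum]
    · intro k _
      apply int_cc
      have := hYc k
      fun_prop
  have hftr : ∀ (r : ℝ) (w : S (c + 2)), ft (fun x => ∑ k ∈ J, Y k x) (r • (w : E (c + 2))) =
      ∑ k ∈ J, Ic c k r * Y k w := by
    intro r w
    rw [hft]
    exact Finset.sum_congr rfl fun k _ => hYe k r w
  have hsumc : Continuous fun x : S (c + 2) => ∑ k ∈ J, Y k x :=
    continuous_finsetSum _ fun k _ => hYc k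
  have hmeas : Measurable fun ξ : E (c + 2) => ‖ft (fun x => ∑ k ∈ J, Y k x) ξ‖ₑ ^ q :=
    (ft_cont (int_cc hsumc)).measurable.enorm.pow_const q
  have hGr : ∀ r : ℝ, Measurable fun x : S (c + 2) => ‖∑ k ∈ J, Ic c k r * Y k x‖ₑ ^ q := by
    intro r
    have h : Continuous fun x : S (c + 2) => ∑ k ∈ J, Ic c k r * Y k x :=
      continuous_finsetSum _ fun k _ => continuous_const.mul (hYc k)
    exact h.measurable.enorm.pow_const q
  -- polar coordinates
  have hpol : ∫⁻ ξ, ‖ft (fun x => ∑ k ∈ J, Y k x) ξ‖ₑ ^ q =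
      ∫⁻ r in Ioi (0 : ℝ), ENNReal.ofReal (r ^ (c + 1)) *
        ∫⁻ x, ‖∑ k ∈ J, Ic c k r * Y k x‖ₑ ^ q ∂(sg (c + 2)) := by
    rw [polar (by omega) _ hmeas]
    simp only [hftr]
    have e1 : c + 2 - 1 = c + 1 := by omega
    rw [e1, lintegral_lintegral_swap]
    · refine lintegral_congr fun r => ?_
      rw [lintegral_const_mul _ (hGr r)]
    · apply Measurable.aemeasurable
      have h0 : Continuous fun p : S (c + 2) × ℝ => ∑ k ∈ J, Ic c k p.2 * Y k p.1 :=
        continuous_finsetSum _ fun k _ =>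
          ((Ic_cont c k).comp continuous_snd).mul ((hYc k).comp continuous_fst)
      have h1 : Measurable fun p : S (c + 2) × ℝ => ENNReal.ofReal (p.2 ^ (c + 1)) *
          ‖∑ k ∈ J, Ic c k p.2 * Y k p.1‖ₑ ^ q :=
        ((measurable_snd.pow_const _).ennreal_ofReal).mul (h0.measurable.enorm.pow_const q)
      exact h1
  rw [hpol]
  have hwm : ∀ k, Measurable fun t : ℝ => ((t ^ (sc c) : ℝ) : ℂ) * Fk (e0 c) (e1 c) k t := by
    intro k
    have h1 : Measurable fun t : ℝ => t ^ (sc c) := measurable_id.pow_const _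
    exact (Complex.measurable_ofReal.comp h1).mul (Fk_cont c k).measurable
  set F : ℝ → ℝ≥0∞ := fun t => ENNReal.ofReal (t ^ (-(sc c * (q - 2)))) *
      ∫⁻ x, ‖∑ k ∈ J, (((t ^ (sc c) : ℝ) : ℂ) * Fk (e0 c) (e1 c) k t) * Y k x‖ₑ ^ q
        ∂(sg (c + 2)) with hF
  have hFm : Measurable F := by
    have h1 : Measurable fun t : ℝ => ENNReal.ofReal (t ^ (-(sc c * (q - 2)))) :=
      (measurable_id.pow_const _).ennreal_ofReal
    have h2 : Measurable fun p : ℝ × S (c + 2) =>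
        ‖∑ k ∈ J, (((p.1 ^ (sc c) : ℝ) : ℂ) * Fk (e0 c) (e1 c) k p.1) * Y k p.2‖ₑ ^ q := by
      refine Measurable.pow_const (Measurable.enorm ?_) q
      refine Finset.measurable_fun_sum _ fun k _ => ?_
      exact ((hwm k).comp measurable_fst).mul ((hYm k).comp measurable_snd)
    exact h1.mul h2.lintegral_prod_right'
  have hpi2 : (0 : ℝ) < 2 * Real.pi := by positivity
  have hpi1 : (1 : ℝ) ≤ 2 * Real.pi := by linarith [Real.pi_gt_three]
  have hpt : ∀ r : ℝ, (Ioi (0 : ℝ)).indicator (fun r => ENNReal.ofReal (r ^ (c + 1)) *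
      ∫⁻ x, ‖∑ k ∈ J, Ic c k r * Y k x‖ₑ ^ q ∂(sg (c + 2))) r ≤
      (Ioi (0 : ℝ)).indicator F (2 * Real.pi * r) := by
    intro r
    by_cases hr : r ∈ Ioi (0 : ℝ)
    · have hr0 : 0 < r := hr
      set t : ℝ := 2 * Real.pi * r with ht
      have ht0 : 0 < t := by positivity
      rw [indicator_of_mem hr, indicator_of_mem (mem_Ioi.2 ht0), hF]
      simp only
      have h1 : ∀ x : S (c + 2),
          ‖∑ k ∈ J, (((t ^ (sc c) : ℝ) : ℂ) * Fk (e0 c) (e1 c) k t) * Y k x‖ₑ ^ q =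
          ENNReal.ofReal (t ^ (sc c * q)) * ‖∑ k ∈ J, Ic c k r * Y k x‖ₑ ^ q := by
        intro x
        have h2 : ∑ k ∈ J, (((t ^ (sc c) : ℝ) : ℂ) * Fk (e0 c) (e1 c) k t) * Y k x =
            ((t ^ (sc c) : ℝ) : ℂ) * ∑ k ∈ J, Ic c k r * Y k x := by
          rw [Finset.mul_sum]
          refine Finset.sum_congr rfl fun k _ => ?_
          unfold Ic
          rw [Ik_eq, mul_assoc]
        rw [h2, enorm_mul, ENNReal.mul_rpow_of_nonneg _ _ hq0]
        congr 1
        rw [← ofReal_norm, Complex.norm_real, Real.norm_of_nonneg (by positivity),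
          ENNReal.ofReal_rpow_of_nonneg (by positivity) hq0, ← Real.rpow_mul ht0.le]
      simp only [h1]
      rw [lintegral_const_mul _ (hGr r), ← mul_assoc, ← ENNReal.ofReal_mul (by positivity),
        ← Real.rpow_add ht0]
      refine mul_le_mul' (ENNReal.ofReal_le_ofReal ?_) le_rfl
      have h3 : -(sc c * (q - 2)) + sc c * q = ((c + 1 : ℕ) : ℝ) := by
        unfold sc
        push_cast
        ring
      rw [h3, Real.rpow_natCast]
      refine pow_le_pow_left₀ hr0.le ?_ _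
      rw [ht]
      nlinarith
    · rw [indicator_of_notMem hr]
      exact zero_le
  rw [← lintegral_indicator measurableSet_Ioi]
  refine (lintegral_mono hpt).trans ?_
  have hm : Measurable ((Ioi (0 : ℝ)).indicator F) := hFm.indicator measurableSet_Ioi
  have e3 := lintegral_map hm (measurable_const_mul (2 * Real.pi)) (μ := (volume : Measure ℝ))
  rw [Real.map_volume_mul_left hpi2.ne', lintegral_smul_measure] at e3
  rw [← e3, smul_eq_mul]
  have h4 : ENNReal.ofReal |(2 * Real.pi)⁻¹| ≤ 1 := by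
    rw [abs_of_pos (by positivity), ← ENNReal.ofReal_one]
    apply ENNReal.ofReal_le_ofReal
    exact inv_le_one_of_one_le₀ hpi1
  calc _ ≤ 1 * ∫⁻ a, (Ioi (0 : ℝ)).indicator F a := mul_le_mul' h4 le_rfl
    _ = ∫⁻ t in Ioi (0 : ℝ), F t := by rw [one_mul, lintegral_indicator measurableSet_Ioi]

theorem ble_norm (c k : ℕ) {t : ℝ} (ht0 : 0 < t) :
    ‖((t ^ (sc c) : ℝ) : ℂ) * Fk (e0 c) (e1 c) k t‖ ^ 2 = wk c k t ^ 2 := by
  rw [norm_mul, norm_Fk c k ht0, Complex.norm_real, Real.norm_of_nonneg (by positivity)]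
  unfold wk
  rw [mul_pow, mul_pow, Even.pow_abs (by decide)]

theorem t_BLE (hA : S_ABS) (hB : S_BES) (hC : S_CON) (hF : S_FIN) (hS : S_SML) : S_BLE := by
  intro c hc q κ hq2 hq4 hκ0 hκ
  have hq0 : 0 < q := by linarith
  obtain ⟨γ, hγ⟩ : ∃ γ, γ = sc c * (q - 2) := ⟨_, rfl⟩
  rw [← hγ] at hκ
  obtain ⟨B, hB0, hB1⟩ := hB c hc
  obtain ⟨Bs, R, hBs, hR, hS1⟩ := hS c hc (2 * γ / q) (by
    apply div_nonneg _ hq0.le
    linarith)
  obtain ⟨C1, hC10, hC1⟩ := hF c hc q hq2 hq4 (by rw [← hγ]; linarith)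
  obtain ⟨C2, hC20, hC2⟩ := hA q (γ - κ) B hq2 hq4 (by linarith) hB0
  obtain ⟨R0, hR0⟩ : ∃ R0, R0 = 2 * max R 16 := ⟨_, rfl⟩
  have hR0p : 0 < R0 := by rw [hR0]; positivity
  obtain ⟨D, hD⟩ : ∃ D : ℝ, D = 2 ^ q * Bs ^ (q / 2) := ⟨_, rfl⟩
  have hD0 : 0 < D := by rw [hD]; positivity
  refine ⟨C1 * R0 ^ κ + (D + 2 ^ κ * C2), by positivity, fun Y hY T hT J hJ => ?_⟩
  have hT0 : 0 < T := by linarith
  by_cases hTR : T < R0
  · refine (hC1 Y hY J).trans ?_
    refine mul_le_mul' (ENNReal.ofReal_le_ofReal ?_) le_rfl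
    have h1 : T ^ κ ≤ R0 ^ κ := Real.rpow_le_rpow hT0.le hTR.le hκ0
    have h2 : T ^ κ * T ^ (-κ) = 1 := by
      rw [← Real.rpow_add hT0, add_neg_cancel, Real.rpow_zero]
    have h3 : 0 < T ^ (-κ) := by positivity
    calc C1 = C1 * (T ^ κ * T ^ (-κ)) := by rw [h2, mul_one]
      _ ≤ C1 * (R0 ^ κ * T ^ (-κ)) :=
          mul_le_mul_of_nonneg_left (mul_le_mul_of_nonneg_right h1 h3.le) hC10.le
      _ = (C1 * R0 ^ κ) * T ^ (-κ) := by ring
      _ ≤ (C1 * R0 ^ κ + (D + 2 ^ κ * C2)) * T ^ (-κ) := by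
          refine mul_le_mul_of_nonneg_right ?_ h3.le
          have : 0 ≤ D + 2 ^ κ * C2 := by positivity
          linarith
  push Not at hTR
  have hTR' : 2 * R ≤ T := by
    have := le_max_left R 16
    linarith
  have hT16 : 32 ≤ T := by
    have := le_max_right R 16
    linarith
  have hYm : ∀ k, Measurable (Y k) := fun k => (hY.1 k).measurable
  have hρ : ∀ k ∈ J, T ≤ Real.sqrt (mk c k) := by
    intro k hk
    refine (hJ k hk).trans ?_
    apply Real.le_sqrt_of_sq_le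
    have h1 := ak_ge hc k
    have h2 : (0 : ℝ) ≤ k := Nat.cast_nonneg k
    show (k : ℝ) ^ 2 ≤ ak c k * (ak c k - 1)
    nlinarith
  set w : ℕ → ℝ → ℂ := fun k t => ((t ^ (sc c) : ℝ) : ℂ) * Fk (e0 c) (e1 c) k t with hw
  have hwm : ∀ k, Measurable (w k) := by
    intro k
    have h1 : Measurable fun t : ℝ => t ^ (sc c) := measurable_id.pow_const _
    exact (Complex.measurable_ofReal.comp h1).mul (Fk_cont c k).measurable
  have hMult : Mult B (fun k => Real.sqrt (mk c k)) w := by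
    refine ⟨hwm, fun k t ht => ?_⟩
    have ht0 : 0 < t := by linarith
    have h1 : ‖w k t‖ ^ 4 = wk c k t ^ 4 := by
      have h2 := ble_norm c k ht0
      calc ‖w k t‖ ^ 4 = (‖w k t‖ ^ 2) ^ 2 := by ring
        _ = (wk c k t ^ 2) ^ 2 := by rw [hw]; simp only; rw [h2]
        _ = _ := by ring
    rw [h1]
    exact hB1 k t ht
  have hpol := ble_polar hq2 hY J
  rw [← hγ] at hpol
  set F : ℝ → ℝ≥0∞ := fun t => ENNReal.ofReal (t ^ (-γ)) *
      ∫⁻ x, ‖∑ k ∈ J, w k t * Y k x‖ₑ ^ q ∂(sg (c + 2)) with hF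
  -- small `t`
  have hsmall : ∫⁻ t in Ioc (0 : ℝ) (T / 2), F t ≤
      ENNReal.ofReal (D * T ^ (-κ)) * VV (sg (c + 2)) q Y J := by
    have h1 : ∀ t ∈ Ioc (0 : ℝ) (T / 2), F t ≤
        ENNReal.ofReal (D * T ^ (-γ)) * VV (sg (c + 2)) q Y J := by
      intro t ht
      have ht0 : 0 < t := ht.1
      have htT : 0 < t / T := by positivity
      obtain ⟨Z, hZ⟩ : ∃ Z, Z = Bs * (t / T) ^ (2 * γ / q) := ⟨_, rfl⟩
      have hZ0 : 0 < Z := by rw [hZ]; positivity
      have h2 : ∀ k ∈ J, ‖w k t‖ ≤ Real.sqrt Z := by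
        intro k hk
        have hk1 := hρ k hk
        apply Real.le_sqrt_of_sq_le
        rw [hw]
        simp only
        rw [ble_norm c k ht0]
        refine (hS1 k t (by linarith) ht0 (by linarith [ht.2])).trans ?_
        rw [hZ]
        refine mul_le_mul_of_nonneg_left ?_ hBs.le
        refine Real.rpow_le_rpow (by positivity) ?_ (div_nonneg (by linarith) hq0.le)
        exact div_le_div_of_nonneg_left ht0.le hT0 hk1
      have h3 := hC _ (sg (c + 2)) q (by linarith) Y hYm J (fun k => w k t) (Real.sqrt Z)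
        (Real.sqrt_nonneg _) h2
      have h4 : ENNReal.ofReal (2 * Real.sqrt Z) ^ q = ENNReal.ofReal (D * (t / T) ^ γ) := by
        rw [ENNReal.ofReal_rpow_of_nonneg (by positivity) hq0.le]
        congr 1
        rw [Real.mul_rpow (by norm_num) (Real.sqrt_nonneg _), Real.sqrt_eq_rpow,
          ← Real.rpow_mul hZ0.le, hZ, Real.mul_rpow hBs.le (by positivity),
          ← Real.rpow_mul htT.le, hD]
        have e1 : 1 / 2 * q = q / 2 := by ring
        have e2 : 2 * γ / q * (q / 2) = γ := by field_simp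
        rw [e1, e2]
        ring
      rw [h4] at h3
      calc F t ≤ ENNReal.ofReal (t ^ (-γ)) *
            (ENNReal.ofReal (D * (t / T) ^ γ) * VV (sg (c + 2)) q Y J) := mul_le_mul' le_rfl h3
        _ = ENNReal.ofReal (t ^ (-γ) * (D * (t / T) ^ γ)) * VV (sg (c + 2)) q Y J := by
            rw [← mul_assoc, ← ENNReal.ofReal_mul (by positivity)]
        _ = _ := by
            congr 2
            rw [Real.div_rpow ht0.le hT0.le, Real.rpow_neg ht0.le, Real.rpow_neg hT0.le]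
            have : 0 < t ^ γ := by positivity
            field_simp
    calc _ ≤ ∫⁻ t in Ioc (0 : ℝ) (T / 2), ENNReal.ofReal (D * T ^ (-γ)) *
          VV (sg (c + 2)) q Y J := setLIntegral_mono' measurableSet_Ioc h1
      _ = ENNReal.ofReal (D * T ^ (-γ)) * VV (sg (c + 2)) q Y J * ENNReal.ofReal (T / 2) := by
          rw [setLIntegral_const, Real.volume_Ioc, sub_zero]
      _ = ENNReal.ofReal (D * T ^ (-γ) * (T / 2)) * VV (sg (c + 2)) q Y J := by
          rw [ENNReal.ofReal_mul (p := D * T ^ (-γ)) (by positivity)]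
          ring
      _ ≤ _ := by
          refine mul_le_mul' (ENNReal.ofReal_le_ofReal ?_) le_rfl
          have h2 : T ^ (-γ) * T ≤ T ^ (-κ) := by
            calc T ^ (-γ) * T = T ^ (-γ + 1) := by rw [Real.rpow_add hT0, Real.rpow_one]
              _ ≤ T ^ (-κ) := Real.rpow_le_rpow_of_exponent_le hT (by linarith)
          have h3 : 0 < T ^ (-γ) * T := by positivity
          calc D * T ^ (-γ) * (T / 2) = D * (T ^ (-γ) * T / 2) := by ring
            _ ≤ D * T ^ (-κ) := by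
                refine mul_le_mul_of_nonneg_left ?_ hD0.le
                linarith
  -- large `t`
  have hlarge : ∫⁻ t in Ici (T / 2), F t ≤
      ENNReal.ofReal (2 ^ κ * C2 * T ^ (-κ)) * VV (sg (c + 2)) q Y J := by
    have h0 := hC2 (S (c + 2)) (sg (c + 2)) Y hYm (fun k => Real.sqrt (mk c k)) w hMult J
    have h1 : ∀ t ∈ Ici (T / 2), F t ≤ ENNReal.ofReal ((T / 2) ^ (-κ)) *
        (ENNReal.ofReal (t ^ (-(γ - κ))) * ∫⁻ x, ‖∑ k ∈ J, w k t * Y k x‖ₑ ^ q ∂(sg (c + 2))) := by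
      intro t ht
      have ht1 : T / 2 ≤ t := ht
      have ht0 : 0 < t := by linarith
      rw [← mul_assoc, ← ENNReal.ofReal_mul (by positivity)]
      refine mul_le_mul' (ENNReal.ofReal_le_ofReal ?_) le_rfl
      have e1 : t ^ (-γ) = t ^ (-κ) * t ^ (-(γ - κ)) := by
        rw [← Real.rpow_add ht0]
        congr 1
        ring
      rw [e1]
      refine mul_le_mul_of_nonneg_right ?_ (by positivity)
      exact Real.rpow_le_rpow_of_nonpos (by linarith) ht1 (by linarith)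
    calc _ ≤ ∫⁻ t in Ici (T / 2), ENNReal.ofReal ((T / 2) ^ (-κ)) *
          (ENNReal.ofReal (t ^ (-(γ - κ))) *
            ∫⁻ x, ‖∑ k ∈ J, w k t * Y k x‖ₑ ^ q ∂(sg (c + 2))) :=
          setLIntegral_mono' measurableSet_Ici h1
      _ = ENNReal.ofReal ((T / 2) ^ (-κ)) * ∫⁻ t in Ici (T / 2),
          (ENNReal.ofReal (t ^ (-(γ - κ))) *
            ∫⁻ x, ‖∑ k ∈ J, w k t * Y k x‖ₑ ^ q ∂(sg (c + 2))) :=
          lintegral_const_mul' _ _ ENNReal.ofReal_ne_top
      _ ≤ ENNReal.ofReal ((T / 2) ^ (-κ)) * ∫⁻ t in Ici (8 : ℝ),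
          (ENNReal.ofReal (t ^ (-(γ - κ))) *
            ∫⁻ x, ‖∑ k ∈ J, w k t * Y k x‖ₑ ^ q ∂(sg (c + 2))) := by
          refine mul_le_mul' le_rfl (lintegral_mono_set ?_)
          exact Ici_subset_Ici.2 (by linarith)
      _ ≤ ENNReal.ofReal ((T / 2) ^ (-κ)) * (ENNReal.ofReal C2 * VV (sg (c + 2)) q Y J) :=
          mul_le_mul' le_rfl h0
      _ = _ := by
          rw [← mul_assoc, ← ENNReal.ofReal_mul (by positivity)]
          congr 2
          rw [Real.div_rpow hT0.le (by norm_num), Real.rpow_neg (by norm_num : (0 : ℝ) ≤ 2)]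
          have : (0 : ℝ) < 2 ^ κ := by positivity
          field_simp
  have hsub : Ioi (0 : ℝ) ⊆ Ioc (0 : ℝ) (T / 2) ∪ Ici (T / 2) := by
    intro r hr
    rcases le_or_gt r (T / 2) with h | h
    · exact Or.inl ⟨hr, h⟩
    · exact Or.inr h.le
  calc _ ≤ ∫⁻ t in Ioi (0 : ℝ), F t := hpol
    _ ≤ ∫⁻ t in Ioc (0 : ℝ) (T / 2) ∪ Ici (T / 2), F t := lintegral_mono_set hsub
    _ ≤ _ := lintegral_union_le _ _ _
    _ ≤ ENNReal.ofReal (D * T ^ (-κ)) * VV (sg (c + 2)) q Y J +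
        ENNReal.ofReal (2 ^ κ * C2 * T ^ (-κ)) * VV (sg (c + 2)) q Y J :=
        add_le_add hsmall hlarge
    _ = ENNReal.ofReal (D * T ^ (-κ) + 2 ^ κ * C2 * T ^ (-κ)) * VV (sg (c + 2)) q Y J := by
        rw [← add_mul, ← ENNReal.ofReal_add (by positivity) (by positivity)]
    _ ≤ _ := by
        refine mul_le_mul' (ENNReal.ofReal_le_ofReal ?_) le_rfl
        have h3 : 0 ≤ C1 * R0 ^ κ * T ^ (-κ) := by positivity
        linarith

end Pool.Agent.U610.UE
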