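import Pool.Agent.U610.UE.Stm2
import Pool.Agent.U610.UE.T_LIM

set_option autoImplicit false

/-!
# Project UE2, package DYA (helper981): dyadic sum and limit
-/

open MeasureTheory Set Filter Topology
open scoped ENNReal NNReal

namespace Pool.Agent.U610.UE

open Pool.Agent.N303.SH

theorem dya_pow (C q κ δ : ℝ) (hC : 0 < C) (hq : 0 < q) (j : ℕ) :
    (C * ((2 : ℝ) ^ j) ^ (-κ)) ^ (1 / q) * ((2 : ℝ) ^ j) ^ δ =
      C ^ (1 / q) * ((2 : ℝ) ^ (δ - κ / q)) ^ j := by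
  have h2 : (0 : ℝ) ≤ 2 := by norm_num
  have h2' : (0 : ℝ) < 2 := by norm_num
  rw [Real.mul_rpow hC.le (by positivity), mul_assoc]
  congr 1
  rw [← Real.rpow_natCast 2 j, ← Real.rpow_mul h2, ← Real.rpow_mul h2, ← Real.rpow_mul h2,
    ← Real.rpow_add h2', ← Real.rpow_natCast ((2 : ℝ) ^ (δ - κ / q)) j, ← Real.rpow_mul h2]
  congr 1
  field_simp
  ring

theorem t_DYA (hF : S_FIN) (hB : S_BLE) : S_DYA := by
  intro c hc q δ hq2 hq4 hδ0 hδ
  have hq : 0 < q := by linarith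
  have hqδ : 0 ≤ q * δ := mul_nonneg hq.le hδ0
  obtain ⟨κ, hκ1, hκ2⟩ := exists_between hδ
  have hκ0 : 0 ≤ κ := by linarith
  have hη : 1 < sc c * (q - 2) := by linarith
  obtain ⟨C0, hC00, hC0⟩ := hF c hc q hq2 hq4 hη
  obtain ⟨C1, hC10, hC1⟩ := hB c hc q κ hq2 hq4 hκ0 hκ2
  set C : ℝ := max C0 C1 with hC
  have hCp : 0 < C := lt_of_lt_of_le hC00 (le_max_left _ _)
  set r : ℝ := (2 : ℝ) ^ (δ - κ / q) with hr
  have hr0 : 0 < r := by positivity
  have hr1 : r < 1 := by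
    apply Real.rpow_lt_one_of_one_lt_of_neg (by norm_num)
    have : δ < κ / q := by
      rw [lt_div_iff₀ hq]
      linarith
    linarith
  have hsum : HasSum (fun j : ℕ => C ^ (1 / q) * r ^ j) (C ^ (1 / q) * (1 - r)⁻¹) :=
    (hasSum_geometric_of_lt_one hr0.le hr1).mul_left _
  set A : ℝ := C ^ (1 / q) * (1 - r)⁻¹ with hA
  have hA0 : 0 ≤ A := by
    have : 0 < (1 - r)⁻¹ := by
      apply inv_pos.2; linarith
    positivity
  have hqe : (ENNReal.ofReal q) ≠ 0 := by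
    rw [Ne, ENNReal.ofReal_eq_zero]; linarith
  refine ⟨A.toNNReal, fun Y g M hY hM hg hlim => ?_⟩
  obtain ⟨hYc, hYe⟩ := hY
  -- the transform of a sum
  have hft : ∀ (J : Finset ℕ) (ξ : E (c + 2)),
      ft (fun x => ∑ k ∈ J, Y k x) ξ = ∑ k ∈ J, ft (Y k) ξ := by
    intro J ξ
    unfold ft
    rw [← integral_finsetSum]
    · congr 1
      ext x
      rw [Finset.mul_sum]
    · intro k _
      apply int_cc
      have := hYc k
      fun_prop
  have hJc : ∀ J : Finset ℕ, Continuous fun x : S (c + 2) => ∑ k ∈ J, Y k x := fun J =>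
    continuous_finsetSum _ fun k _ => hYc k
  -- partial sums
  set T : ℕ → S (c + 2) → ℂ := fun N x => ∑ k ∈ Finset.range N, Y k x with hT
  have hTc : ∀ N, Continuous (T N) := fun N => hJc _
  have hTi : ∀ N, Integrable (T N) (sg (c + 2)) := fun N =>
    (hTc N).integrable_of_hasCompactSupport (HasCompactSupport.of_compactSpace _)
  set J : ℕ → ℕ → Finset ℕ := fun N j => (Finset.range N).filter (fun k => Nat.log 2 k = j) with hJ
  have hdec : ∀ N ξ, ft (T N) ξ = ∑ j ∈ Finset.range N, ft (fun x => ∑ k ∈ J N j, Y k x) ξ := by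
    intro N ξ
    rw [hT]
    simp only
    rw [hft]
    simp only [hft]
    rw [hJ]
    refine (Finset.sum_fiberwise_of_maps_to (fun k hk => ?_) _).symm
    rw [Finset.mem_range] at hk ⊢
    exact lt_of_le_of_lt (Nat.log_le_self 2 k) hk
  have hVV : ∀ N j, VV (sg (c + 2)) q Y (J N j) ≤ (ENNReal.ofReal (((2 : ℝ) ^ j) ^ δ) * M) ^ q := by
    intro N j
    unfold VV
    refine iSup_le fun ε => ?_
    have h5 := hM j (J N j) ε (fun k hk => (Finset.mem_filter.1 hk).2)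
    rw [eLpNorm_eq_eLpNorm' hqe ENNReal.ofReal_ne_top, ENNReal.toReal_ofReal hq.le] at h5
    have h4 := ENNReal.rpow_le_rpow h5 hq.le
    refine le_trans (le_of_eq ?_) h4
    unfold eLpNorm'
    rw [← ENNReal.rpow_mul, one_div_mul_cancel hq.ne', ENNReal.rpow_one]
  have hint : ∀ N j, ∫⁻ ξ, ‖ft (fun x => ∑ k ∈ J N j, Y k x) ξ‖ₑ ^ q ≤
      ENNReal.ofReal (C * ((2 : ℝ) ^ j) ^ (-κ)) * VV (sg (c + 2)) q Y (J N j) := by
    intro N j
    rcases Nat.eq_zero_or_pos j with rfl | hj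
    · refine (hC0 Y ⟨hYc, hYe⟩ (J N 0)).trans (mul_le_mul' (ENNReal.ofReal_le_ofReal ?_) le_rfl)
      simp only [pow_zero, Real.one_rpow, mul_one]
      exact le_max_left _ _
    · refine (hC1 Y ⟨hYc, hYe⟩ ((2 : ℝ) ^ j) (one_le_pow₀ (by norm_num)) (J N j) ?_).trans
        (mul_le_mul' (ENNReal.ofReal_le_ofReal ?_) le_rfl)
      · intro k hk
        have h6 : Nat.log 2 k = j := (Finset.mem_filter.1 hk).2
        have h7 : k ≠ 0 := by
          rintro rfl
          simp at h6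
          omega
        have h8 := Nat.pow_log_le_self 2 h7
        rw [h6] at h8
        exact_mod_cast h8
      · exact mul_le_mul_of_nonneg_right (le_max_right _ _) (by positivity)
  have hblk : ∀ N j, (∫⁻ ξ, ‖ft (fun x => ∑ k ∈ J N j, Y k x) ξ‖ₑ ^ q) ^ (1 / q) ≤
      ENNReal.ofReal (C ^ (1 / q) * r ^ j) * M := by
    intro N j
    have h1 := ENNReal.rpow_le_rpow ((hint N j).trans (mul_le_mul' le_rfl (hVV N j)))
      (by positivity : 0 ≤ 1 / q)
    refine h1.trans (le_of_eq ?_)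
    rw [ENNReal.mul_rpow_of_nonneg _ _ (by positivity), ← ENNReal.rpow_mul,
      mul_one_div_cancel hq.ne', ENNReal.rpow_one, ← mul_assoc,
      ENNReal.ofReal_rpow_of_nonneg (by positivity) (by positivity),
      ← ENNReal.ofReal_mul (by positivity), dya_pow C q κ δ hCp hq j]
  have hN : ∀ N, ∫⁻ ξ, ‖ft (T N) ξ‖ₑ ^ q ≤ (ENNReal.ofReal A * M) ^ q := by
    intro N
    have hm : ∀ j, Measurable fun ξ : E (c + 2) => ‖ft (fun x => ∑ k ∈ J N j, Y k x) ξ‖ₑ :=
      fun j => (ft_cont (int_cc (hJc _))).measurable.enorm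
    have h1 : ∫⁻ ξ, ‖ft (T N) ξ‖ₑ ^ q ≤
        ∫⁻ ξ, (∑ j ∈ Finset.range N, ‖ft (fun x => ∑ k ∈ J N j, Y k x) ξ‖ₑ) ^ q := by
      apply lintegral_mono
      intro ξ
      apply ENNReal.rpow_le_rpow _ hq.le
      rw [hdec N ξ]
      exact enorm_sum_le _ _
    have h2 := mink_fin volume q (by linarith) _ hm N
    have h3 : ∑ j ∈ Finset.range N,
        (∫⁻ ξ, ‖ft (fun x => ∑ k ∈ J N j, Y k x) ξ‖ₑ ^ q) ^ (1 / q) ≤ ENNReal.ofReal A * M := by
      calc _ ≤ ∑ j ∈ Finset.range N, ENNReal.ofReal (C ^ (1 / q) * r ^ j) * M :=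
            Finset.sum_le_sum fun j _ => hblk N j
        _ = ENNReal.ofReal (∑ j ∈ Finset.range N, C ^ (1 / q) * r ^ j) * M := by
            rw [ENNReal.ofReal_sum_of_nonneg (fun j _ => by positivity), Finset.sum_mul]
        _ ≤ ENNReal.ofReal A * M := by
            refine mul_le_mul' (ENNReal.ofReal_le_ofReal ?_) le_rfl
            exact sum_le_hasSum _ (fun j _ => by positivity) hsum
    have h4 := ENNReal.rpow_le_rpow (h2.trans h3) hq.le
    rw [← ENNReal.rpow_mul, one_div_mul_cancel hq.ne', ENNReal.rpow_one] at h4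
    exact h1.trans h4
  -- convergence of the transforms
  have hconv : ∀ ξ, Tendsto (fun N => ft (T N) ξ) atTop (𝓝 (ft g ξ)) := by
    intro ξ
    rw [tendsto_iff_edist_tendsto_0]
    refine tendsto_of_tendsto_of_tendsto_of_le_of_le tendsto_const_nhds hlim
      (fun _ => bot_le) fun N => ?_
    show edist (ft (T N) ξ) (ft g ξ) ≤ _
    rw [edist_comm, edist_eq_enorm_sub]
    exact ft_sub_enorm_le hg (hTi N) ξ
  have b4 : ∫⁻ ξ, ‖ft g ξ‖ₑ ^ q ≤ (ENNReal.ofReal A * M) ^ q := by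
    calc ∫⁻ ξ, ‖ft g ξ‖ₑ ^ q = ∫⁻ ξ, liminf (fun N => ‖ft (T N) ξ‖ₑ ^ q) atTop := by
          apply lintegral_congr
          intro ξ
          exact (((ENNReal.continuous_rpow_const).tendsto _).comp (hconv ξ).enorm).liminf_eq.symm
      _ ≤ liminf (fun N => ∫⁻ ξ, ‖ft (T N) ξ‖ₑ ^ q) atTop :=
          lintegral_liminf_le fun N => (ft_cont (hTi N)).measurable.enorm.pow_const _
      _ ≤ (ENNReal.ofReal A * M) ^ q :=
          (liminf_le_liminf (Eventually.of_forall fun N => hN N)).trans (liminf_const _).le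
  rw [eLpNorm_eq_eLpNorm' hqe ENNReal.ofReal_ne_top, ENNReal.toReal_ofReal hq.le]
  have b6 := ENNReal.rpow_le_rpow b4 (by positivity : 0 ≤ 1 / q)
  rw [← ENNReal.rpow_mul, mul_one_div_cancel hq.ne', ENNReal.rpow_one] at b6
  exact b6

end Pool.Agent.U610.UE
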