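import Pool.Agent.U610.UE.Stm2

set_option autoImplicit false

/-! Project UE, package SML: the Bessel type functions are small below the turning point. -/

open Set Filter Topology MeasureTheory

namespace Pool.Agent.U610.UE

open Pool.Agent.N303.SH

lemma sml_core {ρ A θ : ℝ} {w v : ℝ → ℝ} (hρ : 4 ≤ ρ) (hθ : 0 ≤ θ) (hθρ : θ ≤ ρ)
    (o : Ode (ρ ^ 2) w v) (hA : Tendsto (fun t => w t ^ 2 + v t ^ 2) atTop (𝓝 A))
    (z : Zero (ρ ^ 2) w v) {t : ℝ} (ht : 0 < t) (htρ : t ≤ ρ / 2) :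
    w t ^ 2 ≤ (20 * A * (2 : ℝ) ^ θ + 1) * (t / ρ) ^ θ := by
  have hA0 := A_nonneg hA
  have hρ0 : 0 < ρ := by linarith
  set h : ℝ := (ρ / 4) ^ ((1 : ℝ) / 3) with hh
  have hh0 : 0 < h := by positivity
  have hh3 : h ^ 3 = ρ / 4 := by
    rw [hh, ← Real.rpow_natCast, ← Real.rpow_mul (by positivity)]
    norm_num
  have h1 := half hρ hh0 hh3 o hA z
  have h2 := small hρ o z hθ hθρ ht htρ
  have htθ : 0 < t ^ θ := Real.rpow_pos_of_pos ht _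
  have hpos : 0 < (t / ρ) ^ θ := Real.rpow_pos_of_pos (by positivity) _
  have e1 : w t ^ 2 = w t ^ 2 * t ^ (-θ) * t ^ θ := by
    rw [mul_assoc, ← Real.rpow_add ht, neg_add_cancel, Real.rpow_zero, mul_one]
  have e2 : (ρ / 2) ^ (-θ) * t ^ θ = (2 : ℝ) ^ θ * (t / ρ) ^ θ := by
    rw [Real.rpow_neg (by positivity), Real.div_rpow hρ0.le (by norm_num),
      Real.div_rpow ht.le hρ0.le]
    have : 0 < ρ ^ θ := Real.rpow_pos_of_pos hρ0 _
    have : 0 < (2 : ℝ) ^ θ := Real.rpow_pos_of_pos (by norm_num) _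
    field_simp
  have h3 : 20 * A / ρ ≤ 20 * A := by
    rw [div_le_iff₀ hρ0]
    nlinarith
  calc w t ^ 2 = w t ^ 2 * t ^ (-θ) * t ^ θ := e1
    _ ≤ w (ρ / 2) ^ 2 * (ρ / 2) ^ (-θ) * t ^ θ := mul_le_mul_of_nonneg_right h2 htθ.le
    _ = w (ρ / 2) ^ 2 * ((ρ / 2) ^ (-θ) * t ^ θ) := by ring
    _ = w (ρ / 2) ^ 2 * ((2 : ℝ) ^ θ * (t / ρ) ^ θ) := by rw [e2]
    _ ≤ (20 * A) * ((2 : ℝ) ^ θ * (t / ρ) ^ θ) :=
        mul_le_mul_of_nonneg_right (h1.trans h3) (by positivity)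
    _ ≤ (20 * A * (2 : ℝ) ^ θ + 1) * (t / ρ) ^ θ := by nlinarith

theorem t_SML : S_SML := by
  intro c hc θ hθ
  obtain ⟨A, hA⟩ := lim_all hc
  have hA0 := A_nonneg (hA 0)
  refine ⟨20 * A * (2 : ℝ) ^ θ + 1, max 4 θ, by positivity, le_max_left _ _, ?_⟩
  intro k t hR ht htρ
  have hρ2 : Real.sqrt (mk c k) ^ 2 = mk c k := Real.sq_sqrt (mk_nonneg hc k)
  exact sml_core ((le_max_left _ _).trans hR) hθ ((le_max_right _ _).trans hR)
    (by rw [hρ2]; exact ode_k k) (hA k) (by rw [hρ2]; exact zero_k hc k) ht htρ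

end Pool.Agent.U610.UE
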