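import Pool.Agent.U610.UE.Main
import Pool.Agent.U610.UE.T_SML
import Pool.Agent.U610.UE.T_BLE
import Pool.Agent.U610.UE.T_DYA

set_option autoImplicit false

/-! Assembly of the second part of project UE. -/

namespace Pool.Agent.U610.UE

theorem s_fin : S_FIN := t_FIN s_abs t_BES t_CON

theorem s_dya : S_DYA := t_DYA s_fin (t_BLE s_abs t_BES t_CON s_fin t_SML)

end Pool.Agent.U610.UE
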