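import Pool.Agent.U610.UE.Def
import Pool.Agent.N303.SH.K9

set_option autoImplicit false

/-!
# Project UE: statements of the packages which need the library N303/SH

`n = c + 2 ≥ 3`. `sg n` is the surface measure, `ft g` the transform of `g dσ`, `Ic c k r` the
scalars with `ft Y (r ω) = Ic c k r Y(ω)` for the spherical harmonics `Y` of degree `k`.
-/

open MeasureTheory Set Filter Topology
open scoped ENNReal NNReal

namespace Pool.Agent.U610.UE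

open Pool.Agent.N303.SH

/-- `Y k` behaves as a spherical harmonic of degree `k` -/
def Eig (c : ℕ) (Y : ℕ → S (c + 2) → ℂ) : Prop :=
  (∀ k, Continuous (Y k)) ∧ ∀ (k : ℕ) (r : ℝ) (w : S (c + 2)),
    ft (Y k) (r • (w : E (c + 2))) = Ic c k r * Y k w

/-- BES: pointwise bounds for the Bessel type functions. -/
def S_BES : Prop := ∀ c : ℕ, 1 ≤ c → ∃ B : ℝ, 0 < B ∧ ∀ (k : ℕ) (t : ℝ), 8 ≤ t →
  wk c k t ^ 4 * max 1 |t - Real.sqrt (mk c k)| ≤ B * (t + |t - Real.sqrt (mk c k)|)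

/-- FIN: finite sums, `q < 4`. -/
def S_FIN : Prop := ∀ c : ℕ, 1 ≤ c → ∀ q : ℝ, 2 < q → q < 4 → 1 < sc c * (q - 2) →
  ∃ C : ℝ, 0 < C ∧ ∀ Y : ℕ → S (c + 2) → ℂ, Eig c Y → ∀ J : Finset ℕ,
    ∫⁻ ξ, ‖ft (fun x => ∑ k ∈ J, Y k x) ξ‖ₑ ^ q ≤ ENNReal.ofReal C * VV (sg (c + 2)) q Y J

/-- LIM: infinite sums, all exponents. -/
def S_LIM : Prop := ∀ c : ℕ, 1 ≤ c → ∀ q : ℝ, 2 + 2 / ((c : ℝ) + 1) < q → ∃ C : ℝ≥0,
  ∀ (Y : ℕ → S (c + 2) → ℂ) (g : S (c + 2) → ℂ) (M : ℝ≥0∞), Eig c Y →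
    (∀ (J : Finset ℕ) (ε : ℕ → ℤˣ),
      eLpNorm (fun x => ∑ k ∈ J, ((ε k : ℤ) : ℂ) * Y k x) (ENNReal.ofReal q) (sg (c + 2)) ≤ M) →
    Integrable g (sg (c + 2)) →
    Tendsto (fun N => ∫⁻ x, ‖g x - ∑ k ∈ Finset.range N, Y k x‖ₑ ∂(sg (c + 2))) atTop (𝓝 0) →
    eLpNorm (ft g) (ENNReal.ofReal q) volume ≤ C * M

end Pool.Agent.U610.UE
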