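import Pool.Agent.U610.UE.Stm

set_option autoImplicit false

/-!
# Project UE, second part: dyadic blocks, with growth of the unconditional bounds
-/

open MeasureTheory Set Filter Topology
open scoped ENNReal NNReal

namespace Pool.Agent.U610.UE

open Pool.Agent.N303.SH

/-- SML: the Bessel type functions are small below the turning point. -/
def S_SML : Prop := ∀ c : ℕ, 1 ≤ c → ∀ θ : ℝ, 0 ≤ θ → ∃ B R : ℝ, 0 < B ∧ 4 ≤ R ∧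
  ∀ (k : ℕ) (t : ℝ), R ≤ Real.sqrt (mk c k) → 0 < t → t ≤ Real.sqrt (mk c k) / 2 →
    wk c k t ^ 2 ≤ B * (t / Real.sqrt (mk c k)) ^ θ

/-- BLE: decay for sums of high degrees. -/
def S_BLE : Prop := ∀ c : ℕ, 1 ≤ c → ∀ q κ : ℝ, 2 < q → q < 4 → 0 ≤ κ → κ < sc c * (q - 2) - 1 →
  ∃ C : ℝ, 0 < C ∧ ∀ Y : ℕ → S (c + 2) → ℂ, Eig c Y → ∀ T : ℝ, 1 ≤ T → ∀ J : Finset ℕ,
    (∀ k ∈ J, T ≤ k) →
    ∫⁻ ξ, ‖ft (fun x => ∑ k ∈ J, Y k x) ξ‖ₑ ^ q ≤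
      ENNReal.ofReal (C * T ^ (-κ)) * VV (sg (c + 2)) q Y J

/-- DYA: the unconditional bounds of the dyadic blocks may grow. -/
def S_DYA : Prop := ∀ c : ℕ, 1 ≤ c → ∀ q δ : ℝ, 2 < q → q < 4 → 0 ≤ δ →
  q * δ < sc c * (q - 2) - 1 → ∃ C : ℝ≥0,
  ∀ (Y : ℕ → S (c + 2) → ℂ) (g : S (c + 2) → ℂ) (M : ℝ≥0∞), Eig c Y →
    (∀ (j : ℕ) (J : Finset ℕ) (ε : ℕ → ℤˣ), (∀ k ∈ J, Nat.log 2 k = j) →
      eLpNorm (fun x => ∑ k ∈ J, ((ε k : ℤ) : ℂ) * Y k x) (ENNReal.ofReal q) (sg (c + 2)) ≤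
        ENNReal.ofReal (((2 : ℝ) ^ j) ^ δ) * M) →
    Integrable g (sg (c + 2)) →
    Tendsto (fun N => ∫⁻ x, ‖g x - ∑ k ∈ Finset.range N, Y k x‖ₑ ∂(sg (c + 2))) atTop (𝓝 0) →
    eLpNorm (ft g) (ENNReal.ofReal q) volume ≤ C * M

end Pool.Agent.U610.UE
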