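import Pool.Agent.U610.UE.Def

set_option autoImplicit false

/-!
# Project UE, package CL: Clarkson's inequality for exponents at least two
-/

open MeasureTheory Set
open scoped ENNReal NNReal

namespace Pool.Agent.U610.UE

theorem par_nn (a b : ℂ) :
    ‖a + b‖₊ ^ 2 + ‖a - b‖₊ ^ 2 = 2 * (‖a‖₊ ^ 2 + ‖b‖₊ ^ 2) := by
  apply NNReal.eq
  push_cast
  have h := parallelogram_law_with_norm ℝ a b
  nlinarith [h]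

theorem clarkson_nn (q : ℝ) (hq : 2 ≤ q) (a b : ℂ) :
    2 * (‖a‖₊ ^ q + ‖b‖₊ ^ q) ≤ ‖a + b‖₊ ^ q + ‖a - b‖₊ ^ q := by
  have hp : 1 ≤ q / 2 := by linarith
  have e : ∀ x : ℝ≥0, x ^ q = (x ^ 2) ^ (q / 2) := by
    intro x
    rw [← NNReal.rpow_natCast, ← NNReal.rpow_mul]
    congr 1
    push_cast
    ring
  rw [e, e, e, e]
  have h1 := NNReal.add_rpow_le_rpow_add (‖a‖₊ ^ 2) (‖b‖₊ ^ 2) hp
  have h2 := NNReal.rpow_arith_mean_le_arith_mean2_rpow (1 / 2) (1 / 2) (‖a + b‖₊ ^ 2)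
    (‖a - b‖₊ ^ 2) (by rw [← add_div]; norm_num) hp
  have h3 : (1 / 2 : ℝ≥0) * ‖a + b‖₊ ^ 2 + 1 / 2 * ‖a - b‖₊ ^ 2 = ‖a‖₊ ^ 2 + ‖b‖₊ ^ 2 := by
    rw [← mul_add, par_nn, ← mul_assoc]
    norm_num
  rw [h3, ← mul_add] at h2
  calc 2 * ((‖a‖₊ ^ 2) ^ (q / 2) + (‖b‖₊ ^ 2) ^ (q / 2))
      ≤ 2 * (1 / 2 * ((‖a + b‖₊ ^ 2) ^ (q / 2) + (‖a - b‖₊ ^ 2) ^ (q / 2))) := by
        gcongr
        exact h1.trans h2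
    _ = (‖a + b‖₊ ^ 2) ^ (q / 2) + (‖a - b‖₊ ^ 2) ^ (q / 2) := by
        rw [← mul_assoc]
        norm_num

theorem t_CL : S_CL := by
  intro q hq a b
  have hq0 : 0 ≤ q := by linarith
  have h := clarkson_nn q hq a b
  change 2 * ((‖a‖₊ : ℝ≥0∞) ^ q + (‖b‖₊ : ℝ≥0∞) ^ q) ≤
    (‖a + b‖₊ : ℝ≥0∞) ^ q + (‖a - b‖₊ : ℝ≥0∞) ^ q
  rw [← ENNReal.coe_rpow_of_nonneg _ hq0, ← ENNReal.coe_rpow_of_nonneg _ hq0,
    ← ENNReal.coe_rpow_of_nonneg _ hq0, ← ENNReal.coe_rpow_of_nonneg _ hq0]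
  exact_mod_cast h

end Pool.Agent.U610.UE
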